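import Pool.Agent.Helper14.MC.Cnt

/-! The volume of an optimal form is the least volume of all admissible forms. -/

set_option autoImplicit false

namespace Pool.Agent.Helper14.MC

open Finset Filter Topology Matrix Pool.Agent.Helper69.RK Pool.Agent.Helper31.EC Pool.Agent.Helper31.EC.Sp
open Pool.Agent.Helper40.EL Pool.Agent.Helper89.LX Pool.Agent.Helper3.LF Pool.Agent.Helper84.MT
open Pool.Agent.Helper95.LF
open Pool.Agent.Helper42.NS (osp u1 u1_dg u1_h osp_dl)
open Pool.Agent.Helper59.EV (sum_split_le)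

noncomputable section

variable {S : Sp} {M : ℕ}

/-- the exponent of a form at the point -/
def gx (Q : S.VV M) {D : ℕ} (k : ℕ) (ω : (S.F k).Ω) (A : Matrix (Mon M D) (Mon M D) ℝ) : ℝ :=
  Real.logb 2 (GQ (S.dl 1 k) A (Q.v k ω)) / (2 * (S.F k).n)

/-- the average exponent -/
def vx (Q : S.VV M) {D : ℕ} (x : ∀ k, FD (S.F k) (Mon M D)) (k : ℕ) : ℝ :=
  ∑ ω, (x k).l.T.μ ω * gx Q k ((x k).l.p.π ω) ((x k).g ω)

theorem vol_eq (Q : S.VV M) {D : ℕ} (x : ∀ k, FD (S.F k) (Mon M D)) : vol Q D x = M - ul (vx Q x) := rfl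

theorem vx_eq (Q : S.VV M) {D : ℕ} (x : ∀ k, FD (S.F k) (Mon M D)) : vx Q x =
    fun k => ∑ ω, ((osp (lb x)).F k).μ ω * gexq (oQ (lb x) Q) (fun k (ω : (x k).l.T.Ω) => (x k).g ω) k ω :=
  (gexq_lb Q x).symm

variable {κ : Type} {A : κ → Part S} {Q : S.VV M} {D : ℕ}

theorem adf_cap {x : ∀ k, FD (S.F k) (Mon M D)} (hx : (gaq Q D).Adf A x) : ∀ᶠ k in UF, ∀ ω,
    ((osp (lb x)).F k).μ ω ≠ 0 →
      Cpd (2 ^ (((gaq Q D).C + 1) * ((osp (lb x)).F k).n)) ((fun k (ω : (x k).l.T.Ω) => (x k).g ω) k ω) := by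
  filter_upwards [hx 1 one_pos] with k hk ω hω
  rw [osp_n]
  exact (hk.2.1 ω hω).1

theorem vx_UB {x : ∀ k, FD (S.F k) (Mon M D)} (hx : (gaq Q D).Adf A x) : UB (vx Q x) := by
  rw [vx_eq]
  exact gexq_UB _ _ _ (by linarith [(gaq Q D).C0]) (adf_cap hx)

theorem vx_nonneg {x : ∀ k, FD (S.F k) (Mon M D)} (hx : (gaq Q D).Adf A x) : ∀ᶠ k in UF, 0 ≤ vx Q x k := by
  rw [vx_eq]
  filter_upwards [gexq_nonneg (oQ (lb x) Q) _ _ (adf_cap hx)] with k hk
  apply Finset.sum_nonneg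
  intro ω _
  by_cases h0 : ((osp (lb x)).F k).μ ω = 0
  · rw [h0, zero_mul]
  · exact mul_nonneg (((osp (lb x)).F k).nn ω) (hk ω h0)

theorem vol_le {x : ∀ k, FD (S.F k) (Mon M D)} (hx : (gaq Q D).Adf A x) : vol Q D x ≤ M := by
  have h1 := ul_mono (UB_const 0) (vx_UB hx) (vx_nonneg hx)
  rw [ul_const] at h1
  rw [vol_eq]
  linarith

/-- the determinant under dominance of forms -/
theorem GQ_dom (r : ℝ) (A B : Matrix (Mon M D) (Mon M D) ℝ) (hA : A.IsSymm) (hA' : ∀ x, 0 ≤ x ⬝ᵥ (A *ᵥ x))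
    (hB : B.IsSymm) (hB' : ∀ x, 0 ≤ x ⬝ᵥ (B *ᵥ x)) (p : Fin M → ℝ) (c : ℝ) (hc : 1 ≤ c)
    (h : ∀ v, v ⬝ᵥ (B *ᵥ v) ≤ c * (v ⬝ᵥ (A *ᵥ v))) : GQ r B p ≤ c ^ M * GQ r A p := by
  apply GQ_le_of r r A B hA hA' hB hB' p p c hc
  intro e
  rw [Jq_qf, Jq_qf, Finset.mul_sum]
  exact Finset.sum_le_sum fun j _ => h _

/-- THE CANONICAL FORM HAS THE LEAST VOLUME -/
theorem vol_opt_le {x y : ∀ k, FD (S.F k) (Mon M D)} (hx : (gaq Q D).Optf A x) (hy : (gaq Q D).Adf A y) :
    vol Q D x ≤ vol Q D y := by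
  classical
  rw [vol_eq, vol_eq]
  have hUx := vx_UB hx.1
  have hUy := vx_UB hy
  set C : ℝ := (((gaq Q D).C + 1) + 3) * M with hC
  have hC0 : 0 ≤ C := by
    have := (gaq Q D).C0
    positivity
  have hbd := gexq_bd (oQ (lb y) Q) _ ((gaq Q D).C + 1) (by linarith [(gaq Q D).C0]) (adf_cap hy)
  have hnn := gexq_nonneg (oQ (lb x) Q) _ _ (adf_cap hx.1)
  suffices h : ∀ e : ℝ, 0 < e → ul (vx Q y) ≤ ul (vx Q x) + e * M by
    have h2 : ul (vx Q y) ≤ ul (vx Q x) := by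
      apply le_of_forall_pos_le_add
      intro ε hε
      have h3 := h (ε / (M + 1)) (by positivity)
      have h4 : ε / (M + 1) * M ≤ ε := by
        rw [div_mul_eq_mul_div, div_le_iff₀ (by positivity)]
        nlinarith
      linarith
    linarith
  intro e he
  have hdom := Gau.Optf.dom (gaq Q D) hx hy e he
  have hle : ∀ᶠ k in UF, vx Q y k ≤ vx Q x k + (e * M + C * (((x k).jj (y k)).l.T.pb (fun w =>
      ¬ ∀ v, qf (((x k).jj (y k)).g' w) v ≤ 2 ^ (e * (S.F k).n) * qf (((x k).jj (y k)).g w) v))) := by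
    filter_upwards [hbd, hnn, hx.1 1 one_pos, hy 1 one_pos] with k b1 b2 b3 b4
    have hn := (S.F k).pos
    have e1 : vx Q y k = ∑ w, ((x k).jj (y k)).l.T.μ w *
        gx Q k ((y k).l.p.π (((x k).l.am (y k).l).p2.π w)) ((y k).g (((x k).l.am (y k).l).p2.π w)) :=
      (sum_push ((x k).l.am (y k).l).p2 (fun ω => gx Q k ((y k).l.p.π ω) ((y k).g ω))).symm
    have e2 : vx Q x k = ∑ w, ((x k).jj (y k)).l.T.μ w *
        gx Q k ((x k).l.p.π (((x k).l.am (y k).l).p1.π w)) ((x k).g (((x k).l.am (y k).l).p1.π w)) :=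
      (sum_push ((x k).l.am (y k).l).p1 (fun ω => gx Q k ((x k).l.p.π ω) ((x k).g ω))).symm
    have h1 := sum_split_le (F := ((x k).jj (y k)).l.T)
      (fun w => gx Q k ((y k).l.p.π (((x k).l.am (y k).l).p2.π w)) ((y k).g (((x k).l.am (y k).l).p2.π w)) -
        gx Q k ((x k).l.p.π (((x k).l.am (y k).l).p1.π w)) ((x k).g (((x k).l.am (y k).l).p1.π w)))
      (fun w => ∀ v, qf (((x k).jj (y k)).g' w) v ≤ 2 ^ (e * (S.F k).n) * qf (((x k).jj (y k)).g w) v)
      (e * M) C (by positivity) hC0 (by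
        intro w hw hE
        have s1 := ((x k).l.am (y k).l).p1.supp w hw
        have s2 := ((x k).l.am (y k).l).p2.supp w hw
        have s3 := (x k).jj_supp (y k) w hw
        have c1 := (b3.2.1 _ s1).1
        have c2 := (b4.2.1 _ s2).1
        rw [← s3]
        set p := Q.v k ((x k).l.p.π (((x k).l.am (y k).l).p1.π w)) with hp
        set g1 := (x k).g (((x k).l.am (y k).l).p1.π w) with hg1
        set g2 := (y k).g (((x k).l.am (y k).l).p2.π w) with hg2
        have h2 := GQ_dom (S.dl 1 k) g1 g2 c1.1 c1.psd.2 c2.1 c2.psd.2 p (2 ^ (e * (S.F k).n))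
          (Real.one_le_rpow (by norm_num) (by positivity)) hE
        have h3 := one_le_GQ (S.dl 1 k) c1.1 c1.psd.2 p
        have h4 := one_le_GQ (S.dl 1 k) c2.1 c2.psd.2 p
        have h5 := Real.logb_le_logb_of_le (b := 2) (by norm_num) (by linarith) h2
        rw [Real.logb_mul (by positivity) (by linarith), Real.logb_pow,
          Real.logb_rpow (by norm_num) (by norm_num)] at h5
        show Real.logb 2 (GQ (S.dl 1 k) g2 p) / (2 * (S.F k).n) -
          Real.logb 2 (GQ (S.dl 1 k) g1 p) / (2 * (S.F k).n) ≤ e * M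
        rw [← sub_div, div_le_iff₀ (by positivity)]
        have h6 : 0 ≤ (M : ℝ) * (e * (S.F k).n) := by positivity
        linarith) (by
        intro w hw
        have s1 := ((x k).l.am (y k).l).p1.supp w hw
        have s2 := ((x k).l.am (y k).l).p2.supp w hw
        have d1 := b1 _ s2
        have d2 := b2 _ s1
        have f1 : gexq (oQ (lb y) Q) (fun k (ω : (y k).l.T.Ω) => (y k).g ω) k (((x k).l.am (y k).l).p2.π w) =
            gx Q k ((y k).l.p.π (((x k).l.am (y k).l).p2.π w)) ((y k).g (((x k).l.am (y k).l).p2.π w)) := by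
          unfold gexq gx
          rw [osp_dl, osp_n]
          rfl
        have f2 : gexq (oQ (lb x) Q) (fun k (ω : (x k).l.T.Ω) => (x k).g ω) k (((x k).l.am (y k).l).p1.π w) =
            gx Q k ((x k).l.p.π (((x k).l.am (y k).l).p1.π w)) ((x k).g (((x k).l.am (y k).l).p1.π w)) := by
          unfold gexq gx
          rw [osp_dl, osp_n]
          rfl
        rw [f1] at d1
        rw [f2] at d2
        linarith)
    have e3 : ∑ w, ((x k).jj (y k)).l.T.μ w *
        (gx Q k ((y k).l.p.π (((x k).l.am (y k).l).p2.π w)) ((y k).g (((x k).l.am (y k).l).p2.π w)) -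
        gx Q k ((x k).l.p.π (((x k).l.am (y k).l).p1.π w)) ((x k).g (((x k).l.am (y k).l).p1.π w))) =
        vx Q y k - vx Q x k := by
      rw [e1, e2, ← Finset.sum_sub_distrib]
      exact Finset.sum_congr rfl fun w _ => by ring
    have h2 : ∑ w, ((x k).jj (y k)).l.T.μ w *
        (gx Q k ((y k).l.p.π (((x k).l.am (y k).l).p2.π w)) ((y k).g (((x k).l.am (y k).l).p2.π w)) -
        gx Q k ((x k).l.p.π (((x k).l.am (y k).l).p1.π w)) ((x k).g (((x k).l.am (y k).l).p1.π w))) ≤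
        e * M + C * (((x k).jj (y k)).l.T.pb (fun w =>
      ¬ ∀ v, qf (((x k).jj (y k)).g' w) v ≤ 2 ^ (e * (S.F k).n) * qf (((x k).jj (y k)).g w) v)) := h1
    rw [e3] at h2
    linarith
  have t1 := ul_tendsto hUx
  have t2 := ul_tendsto hUy
  have t3 := t1.add ((hdom.const_mul C).const_add (e * M))
  rw [mul_zero, add_zero] at t3
  exact le_of_tendsto_of_tendsto t2 t3 hle

/-- the volume of an optimal form is canonical -/
theorem vol_opt_eq {x y : ∀ k, FD (S.F k) (Mon M D)} (hx : (gaq Q D).Optf A x) (hy : (gaq Q D).Optf A y) :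
    vol Q D x = vol Q D y := le_antisymm (vol_opt_le hx hy.1) (vol_opt_le hy hx.1)

end

end Pool.Agent.Helper14.MC
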