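import Pool.Agent.Helper14.MC.Cntv

/-! COUNT WITH VOLUMES, abstract form. `φ` = size of a form at a point, `γ` = Gram determinant of its gradients: if
typically `φ ≤ 2 ^ o(n)` and `γ ≥ 2 ^ (2 σ n)` then the point has at most `M s - E σ` digits over the base. -/

set_option autoImplicit false

namespace Pool.Agent.Helper14.MC

open Finset Filter Topology MvPolynomial MeasureTheory Pool.Agent.Helper69.RK
open Pool.Agent.Helper31.EC Pool.Agent.Helper31.EC.Sp
open Pool.Agent.Helper59.EV (CH_lab CH_cardv)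
open Pool.Agent.Helper80.LF (Q mem_Q Q_vol Q_disj)
open Pool.Agent.Helper59.EN (mass_nn res_nn)

noncomputable section

/-- COUNT IN REGULAR VOLUME, abstract form -/
theorem CNT_abs {S : Sp} {M : ℕ} (y : S.VV M) (s : ℝ) (hs : 0 ≤ s)
    (φ γ : ∀ k, (S.F k).Ω → (Fin M → ℝ) → ℝ)
    (hcmp : ∃ K : ℕ → ℝ, S.Sub K ∧ ∀ᶠ k in UF, ∀ ω, (S.F k).μ ω ≠ 0 →
      ∀ p p' : Fin M → ℝ, (∀ i, |p' i - p i| ≤ S.dl s k) →
        φ k ω p' ≤ K k * φ k ω p ∧ γ k ω p ≤ K k * γ k ω p')
    (hvol : ∃ C : ℝ, 0 < C ∧ ∀ᶠ k in UF, ∀ ω, (S.F k).μ ω ≠ 0 → ∀ ρ g : ℝ, 0 < ρ → 0 < g →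
      volume {P : Fin M → ℝ | φ k ω P ≤ ρ ^ 2 ∧ g ^ 2 ≤ γ k ω P} ≤ ENNReal.ofReal (C * ρ ^ M / g))
    (hZ : ∀ᶠ k in UF, ∀ ω ω', (S.F k).μ ω ≠ 0 → (S.F k).μ ω' ≠ 0 → (S.F k).Z ω ω' →
      φ k ω = φ k ω' ∧ γ k ω = γ k ω')
    (E : ∀ k, (S.F k).Ω → Prop) (hE : Typ E) (K0 : ℕ → ℝ) (hK0 : S.Sub K0)
    (σ : ∀ k, (S.F k).Ω → ℝ)
    (hσ : ∀ᶠ k in UF, ∀ ω, (S.F k).μ ω ≠ 0 → 0 ≤ σ k ω ∧ σ k ω ≤ M * s)
    (hγ0 : ∀ᶠ k in UF, ∀ ω, (S.F k).μ ω ≠ 0 → 0 ≤ γ k ω (y.v k ω))
    (hφE : ∀ᶠ k in UF, ∀ ω, (S.F k).μ ω ≠ 0 → E k ω → φ k ω (y.v k ω) ≤ K0 k)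
    (hγE : ∀ᶠ k in UF, ∀ ω, (S.F k).μ ω ≠ 0 → E k ω →
      2 ^ (2 * σ k ω * (S.F k).n) ≤ K0 k * γ k ω (y.v k ω)) :
    H (y.dg s) ≤ M * s - ul (fun k => ∑ ω, (S.F k).μ ω * σ k ω) := by
  classical
  obtain ⟨Ky, hKyS, hKy⟩ := y.bd
  obtain ⟨Kc, hKcS, hKc⟩ := hcmp
  obtain ⟨C, hC, hvolC⟩ := hvol
  have hMs : 0 ≤ (M : ℝ) * s := by positivity
  -- the constants
  set R : ℕ → ℝ := fun k => 7 * (Ky k + 1) with hR
  have hRS : S.Sub R := (S.Sub_const (by norm_num)).mul (hKyS.add (S.Sub_const zero_le_one))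
  set B : ℕ → ℝ := fun k => Kc k * K0 k + 1 with hB
  have hBS : S.Sub B := (hKcS.mul hK0).add (S.Sub_const zero_le_one)
  have hB1 : ∀ᶠ k in UF, 1 ≤ B k := by
    filter_upwards [hKcS.1, hK0.1] with k h1 h2
    show 1 ≤ Kc k * K0 k + 1
    have := mul_nonneg h1 h2
    linarith
  -- the average
  set g0 : ℕ → ℝ := fun k => ∑ ω, (S.F k).μ ω * σ k ω with hg0
  have hmass : ∀ k, ∑ ω, (S.F k).μ ω = 1 := fun k => (S.F k).ms
  have hg0U : UB g0 := by
    apply UB_of_nonneg_le (C := M * s)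
    · filter_upwards [hσ] with k hk
      refine Finset.sum_nonneg fun ω _ => ?_
      by_cases hω : (S.F k).μ ω = 0
      · rw [hω, zero_mul]
      · exact mul_nonneg ((S.F k).nn ω) (hk ω hω).1
    · filter_upwards [hσ] with k hk
      calc g0 k ≤ ∑ ω, (S.F k).μ ω * (M * s) := by
            refine Finset.sum_le_sum fun ω _ => ?_
            by_cases hω : (S.F k).μ ω = 0
            · rw [hω, zero_mul, zero_mul]
            · exact mul_le_mul_of_nonneg_left (hk ω hω).2 ((S.F k).nn ω)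
        _ = M * s := by rw [← Finset.sum_mul, hmass, one_mul]
  -- the entropy
  set fy : ℕ → ℝ := S.rt (fun k => Setoid.ker (y.cellv s k)) S.tr with hfy
  have hHy : H (y.dg s) = ul fy := Sp.H_io (y.bdd s)
  have hUBy : UB fy := Sp.UB_rt (y.bdd s).toInf _
  set p0 : ℕ → ℝ := fun k => mass (res (S.F k).μ (fun ω => ¬ E k ω)) with hp0
  have hp0t : Tendsto p0 UF (𝓝 0) := hE
  rw [hHy]
  apply le_of_forall_pos_le_add
  intro ε hε
  set j : ∀ k, (S.F k).Ω → ℕ := fun k ω => ⌊σ k ω / ε⌋₊ with hj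
  set J : ℕ := ⌊M * s / ε⌋₊ with hJ
  set lJ : ℝ := Real.logb 2 (J + 2) with hlJ
  have hlJ0 : 0 ≤ lJ := Real.logb_nonneg (by norm_num) (by
    have : (0 : ℝ) ≤ J := Nat.cast_nonneg J
    linarith)
  set f : ℕ → ℝ := fun k => lJ / (S.F k).n + ((Real.logb 2 (C + 2)) / (S.F k).n +
    (M + 1) * (Real.logb 2 (B k + 2) / (S.F k).n)) + (M * s + ε) +
    M * (Real.logb 2 (R k + 2) / (S.F k).n + s) * p0 k with hf
  have hft : Tendsto f UF (𝓝 (M * s + ε)) := by
    have t1 := S.div_n_tendsto lJ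
    have t2 := S.div_n_tendsto (Real.logb 2 (C + 2))
    have t3 := hBS.2.const_mul ((M : ℝ) + 1)
    have t4 := ((hRS.2.add_const s).const_mul (M : ℝ)).mul hp0t
    have t5 := ((t1.add (t2.add t3)).add_const (M * s + ε)).add t4
    simpa using t5
  have hkey : ∀ᶠ k in UF, fy k ≤ f k - g0 k := by
    filter_upwards [hKy, hKyS.1, hKc, hKcS.1, hvolC, hZ, hσ, hγ0, hφE, hγE, hB1, hK0.1] with
      k b1 b2 b3 b4 b5 b6 b7 b8 b9 b10 b11 b12
    have hn := (S.F k).pos
    have hδ := S.dl_pos s k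
    have hδ1 : S.dl s k ≤ 1 := by
      have := S.dl_anti hs k
      rwa [S.dl_zero] at this
    have hjσ : ∀ ω, (S.F k).μ ω ≠ 0 → (j k ω : ℝ) * ε ≤ σ k ω ∧ σ k ω ≤ (j k ω : ℝ) * ε + ε := by
      intro ω hω
      have h1 : 0 ≤ σ k ω / ε := div_nonneg (b7 ω hω).1 hε.le
      have h2 := Nat.floor_le h1
      have h3 := Nat.lt_floor_add_one (σ k ω / ε)
      rw [le_div_iff₀ hε] at h2
      rw [div_lt_iff₀ hε, add_mul, one_mul] at h3
      exact ⟨h2, h3.le⟩
    have hBk : 0 < B k := by linarith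
    have hfin := fin_cnt (M := M) (S.F k).μ (Quotient.mk (S.F k).Z) (y.v k) (E k) (S.dl s k) (Ky k + 1)
      (fun ω => C * B k ^ (M + 1) * 2 ^ (-((j k ω : ℝ) * ε * (S.F k).n))) (j k) J
      (fun ω => {P : Fin M → ℝ | φ k ω P ≤ B k ^ 2 ∧ (2 ^ ((j k ω : ℝ) * ε * (S.F k).n) / B k) ^ 2 ≤ γ k ω P})
      (S.F k).nn (S.F k).ms hδ hδ1 (by linarith) (fun ω hω i => (b1 ω hω i).trans (by linarith))
      (fun ω hω => Nat.floor_le_floor (div_le_div_of_nonneg_right (b7 ω hω).2 hε.le))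
      (fun ω _ => by positivity)
      (by
        intro ω ω' h1 h2 _ _ h5 h6
        obtain ⟨e1, e2⟩ := b6 ω ω' h1 h2 (Quotient.exact h5)
        rw [e1, e2, h6])
      (by
        intro ω hω _
        refine (b5 ω hω (B k) _ hBk (div_pos (by positivity) hBk)).trans (le_of_eq ?_)
        congr 1
        rw [Real.rpow_neg (by norm_num), pow_succ]
        field_simp)
      (by
        intro ω hω hEω P hP
        rw [mem_Q hδ] at hP
        have h1 : ∀ i, |P i - y.v k ω i| ≤ S.dl s k := by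
          intro i
          have h2 := hP i
          have f1 := Int.floor_le (P i / S.dl s k)
          have f2 := Int.lt_floor_add_one (P i / S.dl s k)
          have f3 := Int.floor_le (y.v k ω i / S.dl s k)
          have f4 := Int.lt_floor_add_one (y.v k ω i / S.dl s k)
          rw [h2] at f1 f2
          rw [le_div_iff₀ hδ] at f1 f3
          rw [div_lt_iff₀ hδ] at f2 f4
          rw [abs_le]
          constructor <;> nlinarith
        obtain ⟨c1, c2⟩ := b3 ω hω (y.v k ω) P h1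
        have hφω := b9 ω hω hEω
        have hγω := b10 ω hω hEω
        have hKK := mul_nonneg b4 b12
        refine ⟨?_, ?_⟩
        · calc φ k ω P ≤ Kc k * φ k ω (y.v k ω) := c1
            _ ≤ Kc k * K0 k := mul_le_mul_of_nonneg_left hφω b4
            _ ≤ B k := by
                show Kc k * K0 k ≤ Kc k * K0 k + 1
                linarith
            _ ≤ B k ^ 2 := by nlinarith
        · have e1 : (2 ^ ((j k ω : ℝ) * ε * (S.F k).n)) ^ 2 ≤ (2 : ℝ) ^ (2 * σ k ω * (S.F k).n) := by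
            rw [← Real.rpow_natCast, ← Real.rpow_mul (by norm_num)]
            apply Real.rpow_le_rpow_of_exponent_le (by norm_num)
            have := (hjσ ω hω).1
            push_cast
            nlinarith
          have e2 : K0 k * γ k ω (y.v k ω) ≤ K0 k * (Kc k * γ k ω P) :=
            mul_le_mul_of_nonneg_left c2 b12
          have e4 : (2 ^ ((j k ω : ℝ) * ε * (S.F k).n)) ^ 2 ≤ (Kc k * K0 k) * γ k ω P := by
            refine (e1.trans (hγω.trans e2)).trans (le_of_eq ?_)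
            ring
          have e5 : (0 : ℝ) < (2 ^ ((j k ω : ℝ) * ε * (S.F k).n)) ^ 2 := by positivity
          have e6 : 0 < γ k ω P := by
            by_contra hcon
            push Not at hcon
            have := mul_nonpos_of_nonneg_of_nonpos hKK hcon
            linarith [mul_comm (Kc k) (K0 k)]
          rw [div_pow, div_le_iff₀ (by positivity)]
          refine e4.trans ?_
          have e7 : Kc k * K0 k ≤ B k ^ 2 := by
            have : Kc k * K0 k ≤ B k := by
              show Kc k * K0 k ≤ Kc k * K0 k + 1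
              linarith
            nlinarith
          rw [mul_comm (γ k ω P)]
          exact mul_le_mul_of_nonneg_right e7 e6.le)
    have hcy : CH (S.F k).μ (fun ω i => ⌊y.v k ω i / S.dl s k⌋) (Quotient.mk (S.F k).Z) = fy k * (S.F k).n := by
      show _ = S.rt (fun k => Setoid.ker (y.cellv s k)) S.tr k * (S.F k).n
      unfold rt
      rw [div_mul_cancel₀ _ hn.ne']
      symm
      apply FSp.e_congr
      · intro ω ω' _ _
        exact Iff.rfl
      · intro ω ω' _ _
        constructor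
        · rintro ⟨_, h2⟩
          exact Quotient.sound h2
        · intro h1
          exact ⟨trivial, Quotient.exact h1⟩
    rw [hcy] at hfin
    -- logarithms
    have l1 : Real.logb 2 (7 * (Ky k + 1) / S.dl s k) ≤ Real.logb 2 (R k + 2) + s * (S.F k).n := by
      rw [Real.logb_div (by positivity) hδ.ne']
      unfold dl
      rw [Real.logb_rpow (by norm_num) (by norm_num)]
      have e1 : Real.logb 2 (7 * (Ky k + 1)) ≤ Real.logb 2 (R k + 2) :=
        Real.logb_le_logb_of_le (by norm_num) (by positivity) (by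
          show 7 * (Ky k + 1) ≤ 7 * (Ky k + 1) + 2
          linarith)
      linarith
    set LL : ℝ := Real.logb 2 (C + 2) + (M + 1) * Real.logb 2 (B k + 2) with hLL
    have hLL0 : 0 ≤ LL := by
      have h1 : 0 ≤ Real.logb 2 (C + 2) := Real.logb_nonneg (by norm_num) (by linarith)
      have h2 : 0 ≤ Real.logb 2 (B k + 2) := Real.logb_nonneg (by norm_num) (by linarith)
      positivity
    have l2 : ∀ ω, (S.F k).μ ω ≠ 0 →
        Real.logb 2 (C * B k ^ (M + 1) * 2 ^ (-((j k ω : ℝ) * ε * (S.F k).n)) / S.dl s k ^ M) ≤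
        LL + (M * s - σ k ω + ε) * (S.F k).n := by
      intro ω hω
      rw [Real.logb_div (by positivity) (by positivity), Real.logb_mul (by positivity) (by positivity),
        Real.logb_mul hC.ne' (by positivity), Real.logb_pow, Real.logb_rpow (by norm_num) (by norm_num),
        Real.logb_pow]
      unfold dl
      rw [Real.logb_rpow (by norm_num) (by norm_num)]
      have e1 : Real.logb 2 C ≤ Real.logb 2 (C + 2) :=
        Real.logb_le_logb_of_le (by norm_num) hC (by linarith)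
      have e2 : Real.logb 2 (B k) ≤ Real.logb 2 (B k + 2) :=
        Real.logb_le_logb_of_le (by norm_num) hBk (by linarith)
      have e3 := (hjσ ω hω).2
      have e4 : (M + 1 : ℝ) * Real.logb 2 (B k) ≤ (M + 1) * Real.logb 2 (B k + 2) :=
        mul_le_mul_of_nonneg_left e2 (by positivity)
      have e5 := mul_le_mul_of_nonneg_right e3 hn.le
      push_cast
      rw [hLL]
      nlinarith
    have l3 : ∑ ω, res (S.F k).μ (E k) ω *
        Real.logb 2 (C * B k ^ (M + 1) * 2 ^ (-((j k ω : ℝ) * ε * (S.F k).n)) / S.dl s k ^ M) ≤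
        LL + (M * s + ε) * (S.F k).n - g0 k * (S.F k).n := by
      have h1 : ∀ ω, res (S.F k).μ (E k) ω *
          Real.logb 2 (C * B k ^ (M + 1) * 2 ^ (-((j k ω : ℝ) * ε * (S.F k).n)) / S.dl s k ^ M) ≤
          (S.F k).μ ω * (LL + (M * s - σ k ω + ε) * (S.F k).n) := by
        intro ω
        by_cases hω : (S.F k).μ ω = 0
        · have e0 : res (S.F k).μ (E k) ω = 0 := by
            unfold res
            split_ifs
            · exact hω
            · rfl
          rw [e0, hω, zero_mul, zero_mul]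
        · have h2 : 0 ≤ LL + (M * s - σ k ω + ε) * (S.F k).n := by
            have h3 : 0 ≤ M * s - σ k ω + ε := by linarith [(b7 ω hω).2]
            positivity
          by_cases hEω : E k ω
          · rw [res_of _ _ _ hEω]
            exact mul_le_mul_of_nonneg_left (l2 ω hω) ((S.F k).nn ω)
          · rw [res_of_not _ _ _ hEω, zero_mul]
            exact mul_nonneg ((S.F k).nn ω) h2
      refine (Finset.sum_le_sum fun ω _ => h1 ω).trans (le_of_eq ?_)
      have h2 : ∀ ω, (S.F k).μ ω * (LL + (M * s - σ k ω + ε) * (S.F k).n) =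
          (S.F k).μ ω * (LL + (M * s + ε) * (S.F k).n) - ((S.F k).μ ω * σ k ω) * (S.F k).n := fun ω => by ring
      rw [Finset.sum_congr rfl (fun ω _ => h2 ω), Finset.sum_sub_distrib, ← Finset.sum_mul, ← Finset.sum_mul,
        hmass, one_mul]
    have hp0k : 0 ≤ p0 k := mass_nn _ (res_nn _ _ (S.F k).nn)
    have l4 : M * Real.logb 2 (7 * (Ky k + 1) / S.dl s k) * p0 k ≤
        M * (Real.logb 2 (R k + 2) + s * (S.F k).n) * p0 k :=
      mul_le_mul_of_nonneg_right (mul_le_mul_of_nonneg_left l1 (Nat.cast_nonneg M)) hp0k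
    have hfin2 : fy k * (S.F k).n ≤ (f k - g0 k) * (S.F k).n := by
      have e1 : (f k - g0 k) * (S.F k).n = lJ + LL + (M * s + ε) * (S.F k).n +
          M * (Real.logb 2 (R k + 2) + s * (S.F k).n) * p0 k - g0 k * (S.F k).n := by
        rw [hf, hLL]
        beta_reduce
        field_simp
      rw [e1]
      have e2 : fy k * (S.F k).n ≤ Real.logb 2 (J + 2) + (∑ ω, res (S.F k).μ (E k) ω *
        Real.logb 2 (C * B k ^ (M + 1) * 2 ^ (-((j k ω : ℝ) * ε * (S.F k).n)) / S.dl s k ^ M)) +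
        M * Real.logb 2 (7 * (Ky k + 1) / S.dl s k) * p0 k := hfin
      linarith
    exact le_of_mul_le_mul_right hfin2 hn
  have h1 : ul fy ≤ ul (fun k => f k - g0 k) := ul_mono hUBy ((UB_of_tendsto hft).sub hg0U) hkey
  rw [ul_sub (UB_of_tendsto hft) hg0U, ul_eq hft] at h1
  linarith

end

end Pool.Agent.Helper14.MC
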