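import Pool.Agent.Helper84.MT.Vol
import Pool.Agent.Helper38.NS.Area

/-! The rows of a form as a family of polynomials in all variables, for the area formula. -/

set_option autoImplicit false

namespace Pool.Agent.Helper14.MC

open MvPolynomial Matrix Pool.Agent.Helper95.LF Pool.Agent.Helper3.LF Pool.Agent.Helper84.MT MeasureTheory

variable {m D : ℕ}

/-! ### the shift -/

/-- substitution `P + v` -/
noncomputable def shf (v : Fin m → ℝ) : MvPolynomial (Fin m) ℝ →ₐ[ℝ] MvPolynomial (Fin m) ℝ :=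
  aeval (fun i => X i + C (v i))

theorem shf_X (v : Fin m → ℝ) (i : Fin m) : shf v (X i) = X i + C (v i) := by
  unfold shf
  rw [aeval_X]

theorem shf_C (v : Fin m → ℝ) (c : ℝ) : shf v (C c) = C c := by
  unfold shf
  rw [aeval_C]
  rfl

theorem eval_shf (v : Fin m → ℝ) (P : Fin m → ℝ) (f : MvPolynomial (Fin m) ℝ) :
    eval P (shf v f) = eval (fun k => P k + v k) f := by
  induction f using MvPolynomial.induction_on with
  | C c => rw [shf_C, eval_C, eval_C]
  | add f g hf hg => rw [map_add, map_add, map_add, hf, hg]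
  | mul_X f n hf => rw [map_mul, map_mul, map_mul, hf, eval_X, shf_X, map_add, eval_X, eval_C]

theorem pderiv_shf (v : Fin m → ℝ) (a : Fin m) (f : MvPolynomial (Fin m) ℝ) :
    pderiv a (shf v f) = shf v (pderiv a f) := by
  induction f using MvPolynomial.induction_on with
  | C c => rw [shf_C, pderiv_C, map_zero]
  | add f g hf hg => rw [map_add, map_add, map_add, map_add, hf, hg]
  | mul_X f n hf =>
    rw [map_mul, pderiv_mul, pderiv_mul, hf, map_add, map_mul, map_mul]
    congr 2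
    rw [shf_X, map_add, pderiv_C, add_zero]
    by_cases h : n = a
    · rw [h, pderiv_X_self, map_one]
    · rw [pderiv_X_of_ne h, map_zero]

theorem shf_deg (v : Fin m → ℝ) (f : MvPolynomial (Fin m) ℝ) (d : ℕ) (hf : f.totalDegree ≤ d) :
    (shf v f).totalDegree ≤ d := by
  rw [f.as_sum, map_sum]
  refine totalDegree_finsetSum_le fun s hs => ?_
  unfold shf
  rw [aeval_monomial]
  refine (totalDegree_mul _ _).trans ?_
  have e1 : (algebraMap ℝ (MvPolynomial (Fin m) ℝ)) (coeff s f) = C (coeff s f) := rfl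
  rw [e1, totalDegree_C, zero_add, Finsupp.prod_fintype _ _ (fun _ => pow_zero _)]
  refine (totalDegree_finsetProd _ _).trans ?_
  have h1 : (s.sum fun _ e => e) ≤ d := (le_totalDegree hs).trans hf
  rw [Finsupp.sum_fintype _ _ (fun _ => rfl)] at h1
  refine le_trans (Finset.sum_le_sum fun i _ => ?_) h1
  refine (totalDegree_pow _ _).trans ?_
  have h2 : (X i + C (v i) : MvPolynomial (Fin m) ℝ).totalDegree ≤ 1 := by
    refine (totalDegree_add _ _).trans (max_le (totalDegree_X _).le ?_)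
    rw [totalDegree_C]
    exact Nat.zero_le _
  calc s i * _ ≤ s i * 1 := Nat.mul_le_mul_left _ h2
    _ = s i := mul_one _

theorem node_shf (r : ℝ) (P : Fin m → ℝ) (j : Fin m → Fin (D + 1)) :
    (fun k => P k + nodp D 0 r j k) = nodp D P r j := by
  funext k
  unfold nodp
  rw [Pi.zero_apply]
  ring

/-! ### the rows -/

/-- the row with the number `k` at the node `j` -/
noncomputable def rowq (r : ℝ) (C' : Matrix (Mon m D) (Mon m D) ℝ)
    (w : Mon m D × (Fin m → Fin (D + 1))) : MvPolynomial (Fin m) ℝ :=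
  shf (nodp D 0 r w.2) (pol (C' w.1))

theorem rowq_deg (r : ℝ) (C' : Matrix (Mon m D) (Mon m D) ℝ)
    (w : Mon m D × (Fin m → Fin (D + 1))) : (rowq r C' w).totalDegree ≤ D :=
  shf_deg _ _ _ (pol_deg _)

theorem eval_rowq (r : ℝ) (C' : Matrix (Mon m D) (Mon m D) ℝ)
    (w : Mon m D × (Fin m → Fin (D + 1))) (P : Fin m → ℝ) :
    eval P (rowq r C' w) = eval (nodp D P r w.2) (pol (C' w.1)) := by
  unfold rowq
  rw [eval_shf, node_shf]

theorem eval_pderiv_rowq (r : ℝ) (C' : Matrix (Mon m D) (Mon m D) ℝ)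
    (w : Mon m D × (Fin m → Fin (D + 1))) (P : Fin m → ℝ) (a : Fin m) :
    eval P (pderiv a (rowq r C' w)) = eval (nodp D P r w.2) (pderiv a (pol (C' w.1))) := by
  unfold rowq
  rw [pderiv_shf, eval_shf, node_shf]

theorem phi_rowq (r : ℝ) (C' : Matrix (Mon m D) (Mon m D) ℝ) (P : Fin m → ℝ) :
    phi r (C'.transpose * C') P = ∑ w, (eval P (rowq r C' w)) ^ 2 := by
  rw [phi_rows]
  unfold ph
  rw [Fintype.sum_prod_type]
  refine Finset.sum_congr rfl fun k _ => Finset.sum_congr rfl fun j _ => ?_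
  rw [eval_rowq]

theorem Jq_rowq (r : ℝ) (C' : Matrix (Mon m D) (Mon m D) ℝ) (P : Fin m → ℝ) (a b : Fin m) :
    Jq r (C'.transpose * C') P a b =
      ∑ w, eval P (pderiv a (rowq r C' w)) * eval P (pderiv b (rowq r C' w)) := by
  rw [Jq_apply, Fintype.sum_prod_type, Finset.sum_comm]
  refine Finset.sum_congr rfl fun j _ => ?_
  rw [← Matrix.mulVec_mulVec, Matrix.dotProduct_mulVec, Matrix.vecMul_transpose]
  unfold dotProduct
  refine Finset.sum_congr rfl fun k _ => ?_
  rw [eval_pderiv_rowq, eval_pderiv_rowq, eval_pderiv_pol, eval_pderiv_pol]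
  rfl

/-! ### the family of rows for the area formula -/

/-- coordinates and rows -/
noncomputable def fam (r : ℝ) (C' : Matrix (Mon m D) (Mon m D) ℝ) :
    Fin m ⊕ (Mon m D × (Fin m → Fin (D + 1))) → MvPolynomial (Fin m) ℝ :=
  Sum.elim (fun i => X i) (rowq r C')

theorem fam_deg (hD : 1 ≤ D) (r : ℝ) (C' : Matrix (Mon m D) (Mon m D) ℝ)
    (w : Fin m ⊕ (Mon m D × (Fin m → Fin (D + 1)))) : (fam r C' w).totalDegree ≤ D := by
  rcases w with i | w
  · exact (totalDegree_X i).le.trans hD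
  · exact rowq_deg r C' w

theorem fam_gram (r : ℝ) (C' : Matrix (Mon m D) (Mon m D) ℝ) (P : Fin m → ℝ) :
    (Matrix.of fun a b => ∑ w, eval P (pderiv a (fam r C' w)) * eval P (pderiv b (fam r C' w))) =
      1 + Jq r (C'.transpose * C') P := by
  ext a b
  rw [Matrix.of_apply, Matrix.add_apply, Jq_rowq, Fintype.sum_sum_type]
  congr 1
  have h1 : ∀ i : Fin m, eval P (pderiv a (fam r C' (Sum.inl i))) * eval P (pderiv b (fam r C' (Sum.inl i))) =
      (if i = a then 1 else 0) * (if i = b then 1 else 0) := by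
    intro i
    have h2 : ∀ c : Fin m, eval P (pderiv c (fam r C' (Sum.inl i))) = if i = c then 1 else 0 := by
      intro c
      have e1 : fam r C' (Sum.inl i) = X i := rfl
      rw [e1, pderiv_X]
      by_cases h : i = c
      · subst h
        rw [Pi.single_eq_same, map_one, if_pos rfl]
      · rw [Pi.single_eq_of_ne h, map_zero, if_neg h]
    rw [h2, h2]
  rw [Finset.sum_congr rfl fun i _ => h1 i, Finset.sum_eq_single a]
  · rw [if_pos rfl, one_mul, Matrix.one_apply]
  · intro i _ hi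
    rw [if_neg hi, zero_mul]
  · intro h
    exact absurd (Finset.mem_univ a) h

/-- the monomial `x_i` -/
def mvar (hD : 1 ≤ D) (i : Fin m) : Mon m D :=
  ⟨fun k => if k = i then ⟨1, by omega⟩ else ⟨0, by omega⟩, by
    have h1 : ∀ k : Fin m, (((if k = i then ⟨1, by omega⟩ else ⟨0, by omega⟩ : Fin (D + 1))) : ℕ) =
        if k = i then 1 else 0 := by
      intro k
      split_ifs <;> rfl
    rw [Finset.sum_congr rfl fun k _ => h1 k, Finset.sum_ite_eq' Finset.univ i, if_pos (Finset.mem_univ i)]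
    exact hD⟩

theorem vv_mvar (hD : 1 ≤ D) (i : Fin m) (p : Fin m → ℝ) : vv p (mvar hD i) = p i := by
  rw [vv_apply, Finset.prod_eq_single i]
  · have : (((mvar hD i).1 i : Fin (D + 1)) : ℕ) = 1 := by
      unfold mvar
      simp
    rw [this, pow_one]
  · intro k _ hk
    have : (((mvar hD i).1 k : Fin (D + 1)) : ℕ) = 0 := by
      unfold mvar
      simp [hk]
    rw [this, pow_zero]
  · intro h
    exact absurd (Finset.mem_univ i) h

theorem coord_le_phi (hD : 1 ≤ D) (r : ℝ) (A : Matrix (Mon m D) (Mon m D) ℝ)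
    (h1 : ∀ x : Mon m D → ℝ, x ⬝ᵥ x ≤ x ⬝ᵥ (A *ᵥ x)) (p : Fin m → ℝ) (i : Fin m) :
    (p i) ^ 2 ≤ phi r A p := by
  have e1 : nodp D p r (fun _ => 0) = p := by
    funext k
    unfold nodp nod
    simp
  have h2 : vv p ⬝ᵥ (A *ᵥ vv p) ≤ phi r A p := by
    unfold phi
    have := Finset.single_le_sum (f := fun j => vv (nodp D p r j) ⬝ᵥ (A *ᵥ vv (nodp D p r j)))
      (fun j _ => (self_nonneg' _).trans (h1 _)) (Finset.mem_univ (fun _ => (0 : Fin (D + 1))))
    simp only [e1] at this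
    exact this
  refine le_trans ?_ ((h1 _).trans h2)
  have h3 := Finset.single_le_sum (f := fun μ : Mon m D => vv p μ * vv p μ)
    (fun μ _ => mul_self_nonneg _) (Finset.mem_univ (mvar hD i))
  simp only [vv_mvar] at h3
  rw [pow_two]
  exact h3

/-- values of the family -/
theorem fam_le (hD : 1 ≤ D) (r : ℝ) (C' : Matrix (Mon m D) (Mon m D) ℝ)
    (h1 : ∀ x : Mon m D → ℝ, x ⬝ᵥ x ≤ x ⬝ᵥ ((C'.transpose * C') *ᵥ x)) (P : Fin m → ℝ)
    (w : Fin m ⊕ (Mon m D × (Fin m → Fin (D + 1)))) :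
    |eval P (fam r C' w)| ≤ Real.sqrt (phi r (C'.transpose * C') P) := by
  rw [← Real.sqrt_sq_eq_abs]
  apply Real.sqrt_le_sqrt
  rcases w with i | w
  · have h2 := coord_le_phi hD r _ h1 P i
    have e1 : fam r C' (Sum.inl i) = X i := rfl
    rw [e1, eval_X]
    exact h2
  · rw [phi_rowq]
    exact Finset.single_le_sum (f := fun w => (eval P (rowq r C' w)) ^ 2) (fun _ _ => sq_nonneg _)
      (Finset.mem_univ w)

/-- everything together -/
theorem exists_fam (hD : 1 ≤ D) (r : ℝ) (A : Matrix (Mon m D) (Mon m D) ℝ) (hs : A.IsSymm)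
    (h1 : ∀ x : Mon m D → ℝ, x ⬝ᵥ x ≤ x ⬝ᵥ (A *ᵥ x)) :
    ∃ f : Fin m ⊕ (Mon m D × (Fin m → Fin (D + 1))) → MvPolynomial (Fin m) ℝ,
      (∀ w, (f w).totalDegree ≤ D) ∧
      (∀ P : Fin m → ℝ, ∀ w, |eval P (f w)| ≤ Real.sqrt (phi r A P)) ∧
      ∀ P : Fin m → ℝ, (Matrix.of fun a b => ∑ w, eval P (pderiv a (f w)) * eval P (pderiv b (f w))).det =
        GQ r A P := by
  have hA : PdM A := ⟨hs, fun x hx => (self_pos hx).trans_le (h1 x)⟩
  obtain ⟨C', hC, -⟩ := exists_factor A hA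
  refine ⟨fam r C', fam_deg hD r C', fun P w => ?_, fun P => ?_⟩
  · rw [hC]
    exact fam_le hD r C' (by rw [← hC]; exact h1) P w
  · rw [fam_gram, hC]
    rfl

/-- the constant of the volume bound -/
noncomputable def avC (m D : ℕ) : ℝ :=
  |Pool.Agent.Helper38.NS.areaC (Fintype.card (Fin m ⊕ (Mon m D × (Fin m → Fin (D + 1))))) m D| + 1

theorem avC_pos (m D : ℕ) : 0 < avC m D := by
  unfold avC
  positivity

/-- VOLUME of the set where the form is small and the Gram determinant is large -/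
theorem vol_form (hD : 1 ≤ D) (r : ℝ) (A : Matrix (Mon m D) (Mon m D) ℝ) (hs : A.IsSymm)
    (h1 : ∀ x : Mon m D → ℝ, x ⬝ᵥ x ≤ x ⬝ᵥ (A *ᵥ x)) (ρ g : ℝ) (hρ : 0 < ρ) (hg : 0 < g) :
    volume {P : Fin m → ℝ | phi r A P ≤ ρ ^ 2 ∧ g ^ 2 ≤ GQ r A P} ≤ ENNReal.ofReal (avC m D * ρ ^ m / g) := by
  obtain ⟨f, hf1, hf2, hf3⟩ := exists_fam hD r A hs h1
  have h1 := Pool.Agent.Helper38.NS.area D f hf1 ρ g hρ.le hg
  refine (measure_mono ?_).trans (h1.trans ?_)
  · rintro P ⟨h2, h3⟩
    refine ⟨fun w => (hf2 P w).trans ?_, ?_⟩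
    · have h4 := Real.sqrt_le_sqrt h2
      rwa [Real.sqrt_sq hρ.le] at h4
    · show g ^ 2 ≤ (Matrix.of fun a b => ∑ w, eval P (pderiv a (f w)) * eval P (pderiv b (f w))).det
      rw [hf3]
      exact h3
  · apply ENNReal.ofReal_le_ofReal
    apply div_le_div_of_nonneg_right _ hg.le
    apply mul_le_mul_of_nonneg_right _ (by positivity)
    unfold avC
    have := le_abs_self (Pool.Agent.Helper38.NS.areaC (Fintype.card (Fin m ⊕ (Mon m D × (Fin m → Fin (D + 1))))) m D)
    linarith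

end Pool.Agent.Helper14.MC
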