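import Pool.Agent.Helper14.MC.Cabs
import Pool.Agent.Helper14.MC.Fam
import Pool.Agent.Helper59.EV.Cap

/-! COUNT IN REGULAR VOLUME for forms between the identity and a cap: the exponent is not truncated. -/

set_option autoImplicit false

namespace Pool.Agent.Helper14.MC

open Finset Filter Topology MvPolynomial MeasureTheory Matrix Pool.Agent.Helper69.RK
open Pool.Agent.Helper31.EC Pool.Agent.Helper31.EC.Sp Pool.Agent.Helper95.LF
open Pool.Agent.Helper3.LF Pool.Agent.Helper89.LX Pool.Agent.Helper84.MT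
open Pool.Agent.Helper59.EV (sum_split_le dl_sq_inv)

noncomputable section

/-- COUNT IN REGULAR VOLUME, truncated exponent -/
theorem CNT_reg {S : Sp} {M D : ℕ} (hD : 1 ≤ D) (y : S.VV M) (s : ℝ) (hs : 0 ≤ s)
    (A : ∀ k, (S.F k).Ω → Matrix (Mon M D) (Mon M D) ℝ)
    (hA : ∀ᶠ k in UF, ∀ ω, (S.F k).μ ω ≠ 0 → (A k ω).IsSymm ∧ ∀ v, v ⬝ᵥ v ≤ v ⬝ᵥ (A k ω *ᵥ v))
    (hZ : ∀ᶠ k in UF, ∀ ω ω', (S.F k).μ ω ≠ 0 → (S.F k).μ ω' ≠ 0 → (S.F k).Z ω ω' → A k ω = A k ω')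
    (E : ∀ k, (S.F k).Ω → Prop) (hE : Typ E) (K0 : ℕ → ℝ) (hK0 : S.Sub K0)
    (σ : ∀ k, (S.F k).Ω → ℝ)
    (hσ : ∀ᶠ k in UF, ∀ ω, (S.F k).μ ω ≠ 0 → 0 ≤ σ k ω ∧ σ k ω ≤ M * s)
    (hφE : ∀ᶠ k in UF, ∀ ω, (S.F k).μ ω ≠ 0 → E k ω → phi (S.dl s k) (A k ω) (y.v k ω) ≤ K0 k)
    (hγE : ∀ᶠ k in UF, ∀ ω, (S.F k).μ ω ≠ 0 → E k ω →
      2 ^ (2 * σ k ω * (S.F k).n) ≤ K0 k * GQ (S.dl s k) (A k ω) (y.v k ω)) :
    H (y.dg s) ≤ M * s - ul (fun k => ∑ ω, (S.F k).μ ω * σ k ω) := by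
  have hPd : ∀ᶠ k in UF, ∀ ω, (S.F k).μ ω ≠ 0 → PdM (A k ω) := by
    filter_upwards [hA] with k hk ω hω
    exact ⟨(hk ω hω).1, fun v hv => (self_pos hv).trans_le ((hk ω hω).2 v)⟩
  refine CNT_abs y s hs (fun k ω => phi (S.dl s k) (A k ω)) (fun k ω => GQ (S.dl s k) (A k ω)) ?_ ?_ ?_
    E hE K0 hK0 σ hσ ?_ hφE hγE
  · have hCu := Cu_one D
    have hCm := Cm_one M D
    have hnn := nn_one M D
    have hcQ := cQ_one M D
    refine ⟨fun k => nn M D * (Cu D * Cm M D * 2 ^ D) ^ 2 + cQ M D ^ M * 2 ^ (2 * D * M), ?_, ?_⟩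
    · exact S.Sub_const (by positivity)
    · filter_upwards [hPd] with k hk ω hω p p' hp
      have hδ := S.dl_pos s k
      have h1 := phi_comp (A k ω) (hk ω hω) (S.dl s k) (S.dl s k) 2 hδ hδ.le (by norm_num) p p' (by
        intro i
        have := hp i
        linarith)
      have h2 := GQ_comp (A k ω) (hk ω hω) (S.dl s k) (S.dl s k) 2 hδ hδ.le (by norm_num) p' p (by
        intro i
        have := hp i
        rw [abs_sub_comm] at this
        linarith)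
      have h3 := phi_nonneg (S.dl s k) (hk ω hω).nonneg p
      have h4 := one_le_GQ (S.dl s k) (hk ω hω).1 (hk ω hω).nonneg p'
      have h5 : 0 ≤ cQ M D ^ M * 2 ^ (2 * D * M) := by positivity
      have h6 : 0 ≤ nn M D * (Cu D * Cm M D * 2 ^ D) ^ 2 := by positivity
      constructor
      · refine h1.trans (mul_le_mul_of_nonneg_right ?_ h3)
        linarith
      · refine h2.trans (mul_le_mul_of_nonneg_right ?_ (by linarith))
        linarith
  · refine ⟨avC M D, avC_pos M D, ?_⟩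
    filter_upwards [hA] with k hk ω hω ρ g hρ hg
    exact vol_form hD (S.dl s k) (A k ω) (hk ω hω).1 (hk ω hω).2 ρ g hρ hg
  · filter_upwards [hZ] with k hk ω ω' h1 h2 h3
    have := hk ω ω' h1 h2 h3
    constructor
    · show phi (S.dl s k) (A k ω) = phi (S.dl s k) (A k ω')
      rw [this]
    · show GQ (S.dl s k) (A k ω) = GQ (S.dl s k) (A k ω')
      rw [this]
  · filter_upwards [hPd] with k hk ω hω
    have := one_le_GQ (S.dl s k) (hk ω hω).1 (hk ω hω).nonneg (y.v k ω)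
    linarith

/-- the exponent of the gradient determinant -/
def gexq {S : Sp} {M D : ℕ} (y : S.VV M)
    (A : ∀ k, (S.F k).Ω → Matrix (Mon M D) (Mon M D) ℝ) (k : ℕ) (ω : (S.F k).Ω) : ℝ :=
  Real.logb 2 (GQ (S.dl 1 k) (A k ω) (y.v k ω)) / (2 * (S.F k).n)

/-- nonnegative exponent -/
theorem gexq_nonneg {S : Sp} {M D : ℕ} (y : S.VV M) (A : ∀ k, (S.F k).Ω → Matrix (Mon M D) (Mon M D) ℝ) (C : ℝ)
    (hA : ∀ᶠ k in UF, ∀ ω, (S.F k).μ ω ≠ 0 → Cpd (2 ^ (C * (S.F k).n)) (A k ω)) :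
    ∀ᶠ k in UF, ∀ ω, (S.F k).μ ω ≠ 0 → 0 ≤ gexq y A k ω := by
  filter_upwards [hA] with k hk ω hω
  have h1 := one_le_GQ (S.dl 1 k) (hk ω hω).1 (hk ω hω).psd.2 (y.v k ω)
  exact div_nonneg (Real.logb_nonneg (by norm_num) h1) (mul_nonneg (by norm_num) (S.F k).pos.le)

/-- upper bound of the exponent by the size of the form -/
theorem gexq_up {S : Sp} {M D : ℕ} (y : S.VV M) (A : ∀ k, (S.F k).Ω → Matrix (Mon M D) (Mon M D) ℝ) (C : ℝ)
    (hA : ∀ᶠ k in UF, ∀ ω, (S.F k).μ ω ≠ 0 → Cpd (2 ^ (C * (S.F k).n)) (A k ω)) :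
    ∀ᶠ k in UF, ∀ ω, (S.F k).μ ω ≠ 0 → ∀ B : ℝ, 0 < B →
      cU M D * phi (S.dl 1 k) (A k ω) (y.v k ω) ≤ B →
      gexq y A k ω ≤ M + M * (Real.logb 2 B / (S.F k).n) := by
  have hcU := cU_one M D
  filter_upwards [hA] with k hk ω hω B hB hB'
  have hn := (S.F k).pos
  have h1 := one_le_GQ (S.dl 1 k) (hk ω hω).1 (hk ω hω).psd.2 (y.v k ω)
  have h2 := one_le_phi (A k ω) (hk ω hω).2.1 (S.dl 1 k) (y.v k ω)
  have h3 := GQ_le_phi (S.dl 1 k) (S.dl_pos 1 k) (dl_one_le S k) (A k ω) (hk ω hω).pdM _ h2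
  rw [dl_sq_inv] at h3
  have h4 : cU M D * (2 ^ (2 * (S.F k).n) * phi (S.dl 1 k) (A k ω) (y.v k ω)) ≤
      2 ^ (2 * (S.F k).n) * B := by
    have := mul_le_mul_of_nonneg_left hB' (show (0 : ℝ) ≤ 2 ^ (2 * (S.F k).n) by positivity)
    linarith
  have h5 : GQ (S.dl 1 k) (A k ω) (y.v k ω) ≤ (2 ^ (2 * (S.F k).n) * B) ^ M := by
    refine h3.trans (pow_le_pow_left₀ ?_ h4 M)
    have : (0 : ℝ) < 2 ^ (2 * (S.F k).n) := by positivity
    have h6 : 0 ≤ 2 ^ (2 * (S.F k).n) * phi (S.dl 1 k) (A k ω) (y.v k ω) :=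
      mul_nonneg this.le (by linarith)
    exact mul_nonneg (by linarith) h6
  have h6 := Real.logb_le_logb_of_le (b := 2) (by norm_num) (by linarith) h5
  rw [Real.logb_pow, Real.logb_mul (by positivity) hB.ne', Real.logb_rpow (by norm_num) (by norm_num)] at h6
  unfold gexq
  rw [div_le_iff₀ (by positivity)]
  have e1 : (M + M * (Real.logb 2 B / (S.F k).n)) * (2 * (S.F k).n) = 2 * M * (S.F k).n + 2 * (M * Real.logb 2 B) := by
    field_simp
  rw [e1]
  have hBl : 0 ≤ M * Real.logb 2 B := by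
    apply mul_nonneg (Nat.cast_nonneg M)
    apply Real.logb_nonneg (by norm_num)
    have : 1 * 1 ≤ cU M D * phi (S.dl 1 k) (A k ω) (y.v k ω) :=
      mul_le_mul hcU h2 zero_le_one (by linarith)
    linarith
  linarith

/-- the exponent is bounded everywhere -/
theorem gexq_bd {S : Sp} {M D : ℕ} (y : S.VV M) (A : ∀ k, (S.F k).Ω → Matrix (Mon M D) (Mon M D) ℝ) (C : ℝ)
    (hC : 0 ≤ C) (hA : ∀ᶠ k in UF, ∀ ω, (S.F k).μ ω ≠ 0 → Cpd (2 ^ (C * (S.F k).n)) (A k ω)) :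
    ∀ᶠ k in UF, ∀ ω, (S.F k).μ ω ≠ 0 → gexq y A k ω ≤ (C + 3) * M := by
  have hcU := cU_one M D
  obtain ⟨K1, hK1, hb⟩ := y.bd
  have hnn := nn_one M D
  have hsub : S.Sub (fun k => cU M D * (nn M D * Fintype.card (Mon M D) * (K1 k + 1) ^ (2 * D))) := by
    have h0 : (0 : ℝ) ≤ nn M D * Fintype.card (Mon M D) := by positivity
    exact (S.Sub_const (by linarith)).mul ((S.Sub_const h0).mul (Sub_pow' (hK1.add (S.Sub_const zero_le_one)) _))
  filter_upwards [gexq_up y A C hA, hA, hb, hsub.eventually_le one_pos, hK1.1] with k h1 h2 h3 h4 h5 ω hω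
  have hn := (S.F k).pos
  have h6 := phi_le (A k ω) (2 ^ (C * (S.F k).n)) (h2 ω hω).2.2 (by positivity) (S.dl 1 k) (K1 k + 1)
    (S.dl_pos 1 k).le (by linarith) (y.v k ω)
    (fun i => add_le_add (h3 ω hω i) (dl_one_le S k))
  have h7 := h1 ω hω (2 ^ (1 * (S.F k).n) * 2 ^ (C * (S.F k).n)) (by positivity) (by
    have h8 := mul_le_mul_of_nonneg_left h6 (show 0 ≤ cU M D by linarith)
    refine h8.trans ?_
    have h9 : cU M D * (nn M D * Fintype.card (Mon M D) * (K1 k + 1) ^ (2 * D)) ≤ 2 ^ (1 * (S.F k).n) := by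
      linarith
    calc cU M D * (nn M D * Fintype.card (Mon M D) * (K1 k + 1) ^ (2 * D) * 2 ^ (C * (S.F k).n)) =
        (cU M D * (nn M D * Fintype.card (Mon M D) * (K1 k + 1) ^ (2 * D))) * 2 ^ (C * (S.F k).n) := by ring
      _ ≤ _ := mul_le_mul_of_nonneg_right h9 (by positivity))
  rw [← Real.rpow_add (by norm_num), Real.logb_rpow (by norm_num) (by norm_num)] at h7
  have e2 : (1 * (S.F k).n + C * (S.F k).n) / (S.F k).n = 1 + C := by field_simp
  rw [e2] at h7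
  refine h7.trans ?_
  have : (0 : ℝ) ≤ M := Nat.cast_nonneg M
  nlinarith

/-- the average of the exponent is bounded -/
theorem gexq_UB {S : Sp} {M D : ℕ} (y : S.VV M) (A : ∀ k, (S.F k).Ω → Matrix (Mon M D) (Mon M D) ℝ) (C : ℝ)
    (hC : 0 ≤ C) (hA : ∀ᶠ k in UF, ∀ ω, (S.F k).μ ω ≠ 0 → Cpd (2 ^ (C * (S.F k).n)) (A k ω)) :
    UB (fun k => ∑ ω, (S.F k).μ ω * gexq y A k ω) := by
  apply UB_of_nonneg_le (C := (C + 3) * M)
  · filter_upwards [gexq_nonneg y A C hA] with k hk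
    apply Finset.sum_nonneg
    intro ω _
    by_cases h0 : (S.F k).μ ω = 0
    · rw [h0, zero_mul]
    · exact mul_nonneg ((S.F k).nn ω) (hk ω h0)
  · filter_upwards [gexq_bd y A C hC hA] with k hk
    exact sum_mul_le _ _ hk

/-- COUNT IN REGULAR VOLUME, forms below a cap -/
theorem CNT_cap {S : Sp} {M D : ℕ} (hD : 1 ≤ D) (y : S.VV M)
    (A : ∀ k, (S.F k).Ω → Matrix (Mon M D) (Mon M D) ℝ) (C : ℝ) (hC : 0 ≤ C)
    (hA : ∀ᶠ k in UF, ∀ ω, (S.F k).μ ω ≠ 0 → Cpd (2 ^ (C * (S.F k).n)) (A k ω))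
    (hZ : ∀ᶠ k in UF, ∀ ω ω', (S.F k).μ ω ≠ 0 → (S.F k).μ ω' ≠ 0 → (S.F k).Z ω ω' → A k ω = A k ω')
    (E : ∀ k, (S.F k).Ω → Prop) (hE : Typ E) (K0 : ℕ → ℝ) (hK0 : S.Sub K0)
    (hφE : ∀ᶠ k in UF, ∀ ω, (S.F k).μ ω ≠ 0 → E k ω → phi (S.dl 1 k) (A k ω) (y.v k ω) ≤ K0 k) :
    H (y.dg 1) ≤ M - ul (fun k => ∑ ω, (S.F k).μ ω * gexq y A k ω) := by
  have hcU := cU_one M D
  set M' : ℝ := (C + 3) * M with hM'
  have hM'0 : 0 ≤ M' := by positivity
  have hg0 := gexq_nonneg y A C hA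
  have hup := gexq_up y A C hA
  have hgM := gexq_bd y A C hC hA
  set σ : ∀ k, (S.F k).Ω → ℝ := fun k ω => min (M : ℝ) (max 0 (gexq y A k ω)) with hσd
  have hK0' : S.Sub (fun k => K0 k + 1) := hK0.add (S.Sub_const zero_le_one)
  have hend := CNT_reg hD y 1 zero_le_one A ?_ hZ E hE (fun k => K0 k + 1) hK0' σ ?_ ?_ ?_
  rotate_left
  · filter_upwards [hA] with k hk ω hω using ⟨(hk ω hω).1, (hk ω hω).2.1⟩
  · refine Eventually.of_forall fun k ω _ => ⟨le_min (Nat.cast_nonneg M) (le_max_left _ _), ?_⟩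
    rw [mul_one]
    exact min_le_left _ _
  · filter_upwards [hφE] with k hk ω hω hEω
    have := hk ω hω hEω
    linarith
  · filter_upwards [hA, hK0.1, hg0] with k hk h0 hg ω hω _
    have hn := (S.F k).pos
    have h1 := one_le_GQ (S.dl 1 k) (hk ω hω).1 (hk ω hω).psd.2 (y.v k ω)
    have h2 : σ k ω ≤ gexq y A k ω := by
      rw [hσd]
      beta_reduce
      rw [max_eq_right (hg ω hω)]
      exact min_le_right _ _
    have h3 : (2 : ℝ) ^ (2 * σ k ω * (S.F k).n) ≤ GQ (S.dl 1 k) (A k ω) (y.v k ω) := by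
      rw [← Real.le_logb_iff_rpow_le (by norm_num) (by linarith)]
      unfold gexq at h2
      rw [le_div_iff₀ (by positivity)] at h2
      linarith
    refine h3.trans ?_
    have h4 : 0 < GQ (S.dl 1 k) (A k ω) (y.v k ω) := by linarith
    nlinarith
  -- comparison
  rw [mul_one] at hend
  refine hend.trans ?_
  have hσU : UB (fun k => ∑ ω, (S.F k).μ ω * σ k ω) := by
    apply UB_of_nonneg_le (C := M)
    · exact Eventually.of_forall fun k => Finset.sum_nonneg fun ω _ =>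
        mul_nonneg ((S.F k).nn ω) (le_min (Nat.cast_nonneg M) (le_max_left _ _))
    · exact Eventually.of_forall fun k => sum_mul_le _ _ fun ω _ => min_le_left _ _
  have hgU := gexq_UB y A C hC hA
  set ee : ℕ → ℝ := fun k => M * (Real.logb 2 (cU M D * (K0 k + 1) + 2) / (S.F k).n) +
    M' * mass (res (S.F k).μ (fun ω => ¬ E k ω)) with hee
  have hee0 : Tendsto ee UF (𝓝 0) := by
    have h1 : S.Sub (fun k => cU M D * (K0 k + 1)) := (S.Sub_const (by linarith)).mul hK0'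
    have h2 := (h1.2.const_mul (M : ℝ)).add (hE.const_mul M')
    simpa using h2
  have hle : ∀ᶠ k in UF, ∑ ω, (S.F k).μ ω * gexq y A k ω ≤ ∑ ω, (S.F k).μ ω * σ k ω + ee k := by
    filter_upwards [hup, hgM, hg0, hφE, hK0.1] with k h1 h2 h3 h4 h5
    have hn := (S.F k).pos
    have hlog : 0 ≤ Real.logb 2 (cU M D * (K0 k + 1) + 2) / (S.F k).n := by
      apply div_nonneg _ hn.le
      apply Real.logb_nonneg (by norm_num)
      have : 0 ≤ cU M D * (K0 k + 1) := mul_nonneg (by linarith) (by linarith)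
      linarith
    have h6 := sum_split_le (F := S.F k) (fun ω => gexq y A k ω - σ k ω) (E k)
      (M * (Real.logb 2 (cU M D * (K0 k + 1) + 2) / (S.F k).n)) M' (mul_nonneg (Nat.cast_nonneg M) hlog) hM'0 (by
        intro ω hω hEω
        have h7 := h1 ω hω (cU M D * (K0 k + 1) + 2) (by
          have : 0 ≤ cU M D * (K0 k + 1) := mul_nonneg (by linarith) (by linarith)
          linarith) (by
          have h8 := mul_le_mul_of_nonneg_left (h4 ω hω hEω) (show 0 ≤ cU M D by linarith)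
          nlinarith)
        have h9 : σ k ω = min (M : ℝ) (gexq y A k ω) := by
          rw [hσd]
          beta_reduce
          rw [max_eq_right (h3 ω hω)]
        rw [h9]
        rcases le_total (M : ℝ) (gexq y A k ω) with h | h
        · rw [min_eq_left h]
          linarith
        · rw [min_eq_right h, sub_self]
          exact mul_nonneg (Nat.cast_nonneg M) hlog) (by
        intro ω hω
        have h7 := h2 ω hω
        have h8 : 0 ≤ σ k ω := le_min (Nat.cast_nonneg M) (le_max_left _ _)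
        linarith)
    have e3 : ∑ ω, (S.F k).μ ω * (gexq y A k ω - σ k ω) =
        ∑ ω, (S.F k).μ ω * gexq y A k ω - ∑ ω, (S.F k).μ ω * σ k ω := by
      rw [← Finset.sum_sub_distrib]
      exact Finset.sum_congr rfl fun ω _ => by ring
    rw [e3] at h6
    rw [hee]
    beta_reduce
    linarith
  have h1 := ul_tendsto hσU
  have h2 := ul_tendsto hgU
  have h3 := h1.add hee0
  rw [add_zero] at h3
  have h4 := le_of_tendsto_of_tendsto h2 h3 hle
  linarith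

end

end Pool.Agent.Helper14.MC
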