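import Pool.Agent.Helper14.MC.Ccap
import Pool.Agent.Helper84.MT.Def
import Pool.Agent.Helper42.NS.Cnt

/-! COUNT WITH FULL VOLUME over a label which carries an admissible form (any point of `R ^ M`, any family of conditions):
the number of digits of the point over the label is at most the volume of the hull of the form. -/

set_option autoImplicit false

namespace Pool.Agent.Helper14.MC

open Finset Filter Topology Matrix Pool.Agent.Helper69.RK Pool.Agent.Helper31.EC Pool.Agent.Helper31.EC.Sp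
open Pool.Agent.Helper40.EL Pool.Agent.Helper89.LX Pool.Agent.Helper3.LF Pool.Agent.Helper84.MT
open Pool.Agent.Helper95.LF (PdM)
open Pool.Agent.Helper42.NS (osp u1 u1_dg u1_h osp_dl)

noncomputable section

variable {S : Sp} {M : ℕ}

/-- the forms of an admissible sequence are subexponential typically -/
theorem adf_sub {ι κ : Type} [Fintype ι] [DecidableEq ι] {Φ : Gau S ι} {A : κ → Part S} {x : ∀ k, FD (S.F k) ι}
    (hx : Φ.Adf A x) : ∃ K : ℕ → ℝ, S.Sub K ∧ Sp.Typ (S := (lb x).sp)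
      (fun k (ω : (x k).l.T.Ω) => Φ.φ k ((x k).l.p.π ω) ((x k).g ω) ≤ K k) := by
  obtain ⟨K, hK, hT⟩ := typ_sub_le (S := (lb x).sp)
    (fun k (ω : (x k).l.T.Ω) => Φ.φ k ((x k).l.p.π ω) ((x k).g ω)) (fun e he => by
      show Tendsto (fun k => (x k).l.T.pb (fun ω => ¬ Φ.φ k ((x k).l.p.π ω) ((x k).g ω) ≤
        2 ^ (e * ((lb x).sp.F k).n))) UF (𝓝 0)
      rw [Metric.tendsto_nhds]
      intro ε hε
      filter_upwards [hx (min e (ε / 2)) (lt_min he (by linarith))] with k hk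
      rw [Real.dist_eq, sub_zero, abs_of_nonneg ((x k).l.T.pb_nonneg _)]
      have h1 := hk.2.2.1
      have h2 : min e (ε / 2) ≤ ε / 2 := min_le_right _ _
      refine lt_of_le_of_lt (le_trans (FSp.pb_mono _ ?_) h1) (by linarith)
      intro ω _ h3 h4
      apply h3
      refine h4.trans ?_
      rw [sp_n]
      apply Real.rpow_le_rpow_of_exponent_le (by norm_num)
      exact mul_le_mul_of_nonneg_right (min_le_left _ _) (S.F k).pos.le)
  exact ⟨K, (sp_Sub _).mp hK, hT⟩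

/-- the point over the label -/
def oQ (l : Lab S) (Q : S.VV M) : (osp l).VV M := (l.pj.vv Q).chg l.V 1 one_pos

theorem oQ_v (l : Lab S) (Q : S.VV M) (k : ℕ) (ω : (l k).T.Ω) : (oQ l Q).v k ω = Q.v k ((l k).p.π ω) := rfl

theorem oQ_dg (l : Lab S) (Q : S.VV M) (r : ℝ) : (oQ l Q).dg r = u1 l (Q.dg r) := by
  unfold oQ
  rw [VV.chg_dg, one_mul, u1_dg]

theorem H_u1 (l : Lab S) (z : S.L) : H (u1 l z) = H (up1 l z) := by
  rw [← h_bot, ← h_bot (up1 l _)]
  have e1 : (⊥ : (osp l).L) = u1 l ⊥ := by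
    unfold u1
    rw [l.pj.map_bot, chgL_bot]
  have e2 : (⊥ : (l.ovr 1 one_pos).L) = up1 l ⊥ := (l.upL_bot 1 one_pos).symm
  rw [e1, e2]
  exact u1_h l _ _

theorem osp_n (l : Lab S) (k : ℕ) : ((osp l).F k).n = (S.F k).n := by
  have e1 : ((osp l).F k).n = 1 * (l k).T.n := rfl
  rw [e1, one_mul, (l k).hn]

/-- the average of the exponent over the label is the exponent of `vol` -/
theorem gexq_lb (Q : S.VV M) {D : ℕ} (x : ∀ k, FD (S.F k) (Mon M D)) :
    (fun k => ∑ ω, ((osp (lb x)).F k).μ ω * gexq (oQ (lb x) Q) (fun k (ω : (x k).l.T.Ω) => (x k).g ω) k ω) =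
    fun k => ∑ ω, (x k).l.T.μ ω *
      (Real.logb 2 (GQ (S.dl 1 k) ((x k).g ω) (Q.v k ((x k).l.p.π ω))) / (2 * (S.F k).n)) := by
  funext k
  refine Finset.sum_congr rfl fun ω _ => ?_
  unfold gexq
  rw [osp_dl, osp_n]
  rfl

/-- COUNT WITH FULL VOLUME: the digits of the point over a label which carries an admissible form -/
theorem cnt_vol {κ : Type} {A : κ → Part S} (Q : S.VV M) {D : ℕ} (hD : 1 ≤ D) (x : ∀ k, FD (S.F k) (Mon M D))
    (hx : (gaq Q D).Adf A x) : H (up1 (lb x) (Q.dg 1)) ≤ vol Q D x := by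
  obtain ⟨K, hK, hT⟩ := adf_sub hx
  set l : Lab S := lb x with hl
  have hTsub : ∀ {L : ℕ → ℝ}, S.Sub L → (osp l).Sub L := fun hL => chg_sub l.V 1 one_pos ((sp_Sub l).mpr hL)
  have hC0 : 0 ≤ (gaq Q D).C + 1 := by linarith [(gaq Q D).C0]
  have hA : ∀ᶠ k in UF, ∀ ω, ((osp l).F k).μ ω ≠ 0 →
      Cpd (2 ^ (((gaq Q D).C + 1) * ((osp l).F k).n)) ((fun k (ω : (x k).l.T.Ω) => (x k).g ω) k ω) := by
    filter_upwards [hx 1 one_pos] with k hk ω hω
    rw [osp_n]
    exact (hk.2.1 ω hω).1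
  have hZ : ∀ᶠ k in UF, ∀ ω ω', ((osp l).F k).μ ω ≠ 0 → ((osp l).F k).μ ω' ≠ 0 → ((osp l).F k).Z ω ω' →
      (fun k (ω : (x k).l.T.Ω) => (x k).g ω) k ω = (fun k (ω : (x k).l.T.Ω) => (x k).g ω) k ω' := by
    refine Eventually.of_forall fun k ω ω' a a' g => ?_
    exact ((x k).meas ω ω' a a' g.1 g.2).1
  have h1 := CNT_cap (S := osp l) hD (oQ l Q) (fun k (ω : (x k).l.T.Ω) => (x k).g ω) ((gaq Q D).C + 1) hC0 hA hZ
    (fun k (ω : (x k).l.T.Ω) => (gaq Q D).φ k ((x k).l.p.π ω) ((x k).g ω) ≤ K k) hT K (hTsub hK) (by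
      refine Eventually.of_forall fun k ω _ h2 => ?_
      rw [osp_dl]
      exact h2)
  rw [← H_u1, ← oQ_dg]
  refine h1.trans (le_of_eq ?_)
  unfold vol
  rw [gexq_lb Q x]

end

end Pool.Agent.Helper14.MC
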