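import Pool.Agent.Helper59.EV.Abs
import Pool.Agent.Helper80.LF.Count

/-! COUNT WITH VOLUMES, abstract form. `φ` = size of a form at a point, `γ` = Gram determinant of its gradients: if
typically `φ ≤ 2 ^ o(n)` and `γ ≥ 2 ^ (2 σ n)` then the point has at most `M s - E σ` digits over the base. -/

set_option autoImplicit false

namespace Pool.Agent.Helper14.MC

open Finset Filter Topology MvPolynomial MeasureTheory Pool.Agent.Helper69.RK
open Pool.Agent.Helper31.EC Pool.Agent.Helper31.EC.Sp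
open Pool.Agent.Helper59.EV (CH_lab CH_cardv)
open Pool.Agent.Helper80.LF (Q mem_Q Q_vol Q_disj)

noncomputable section

/-- cubes in a set of small volume -/
theorem card_cubes {M : ℕ} (δ : ℝ) (hδ : 0 < δ) (T : Finset (Fin M → ℤ)) (U : Set (Fin M → ℝ)) (θ : ℝ) (hθ : 0 ≤ θ)
    (h : ∀ c ∈ T, Q δ c ⊆ U) (hU : volume U ≤ ENNReal.ofReal θ) : (T.card : ℝ) * δ ^ M ≤ θ := by
  classical
  have h1 : volume (⋃ c ∈ T, Q δ c) = ENNReal.ofReal (T.card * δ ^ M) := by
    rw [measure_biUnion_finset]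
    · simp only [Q_vol hδ]
      rw [Finset.sum_const, nsmul_eq_mul, ENNReal.ofReal_mul (by positivity),
        ENNReal.ofReal_natCast]
    · intro c _ c' _ h
      exact Q_disj hδ c c' h
    · intro c _
      unfold Q
      exact MeasurableSet.univ_pi fun i => measurableSet_Ico
  have h2 : volume (⋃ c ∈ T, Q δ c) ≤ ENNReal.ofReal θ :=
    (measure_mono (Set.iUnion₂_subset h)).trans hU
  rw [h1] at h2
  exact (ENNReal.ofReal_le_ofReal_iff hθ).1 h2

/-- number of cells in a box -/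
theorem card_box {M : ℕ} (T : Finset (Fin M → ℤ)) (B : ℕ) (h : ∀ c ∈ T, ∀ i, |(c i : ℝ)| ≤ B) :
    (T.card : ℝ) ≤ (2 * B + 1) ^ M := by
  classical
  have h1 : T ⊆ Fintype.piFinset (fun _ : Fin M => Finset.Icc (-(B : ℤ)) B) := by
    intro c hc
    rw [Fintype.mem_piFinset]
    intro i
    rw [Finset.mem_Icc]
    have h2 := abs_le.1 (h c hc i)
    constructor
    · have := h2.1
      exact_mod_cast this
    · have := h2.2
      exact_mod_cast this
  have h2 := Finset.card_le_card h1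
  rw [Fintype.card_piFinset, Finset.prod_const, Finset.card_univ, Fintype.card_fin, Int.card_Icc] at h2
  have h3 : ((B : ℤ) + 1 - -(B : ℤ)).toNat = 2 * B + 1 := by omega
  rw [h3] at h2
  exact_mod_cast h2

theorem res_of {Ω : Type} (μ : Ω → ℝ) (E : Ω → Prop) (ω : Ω) (h : E ω) : res μ E ω = μ ω := by
  unfold res
  rw [if_pos h]

theorem res_of_not {Ω : Type} (μ : Ω → ℝ) (E : Ω → Prop) (ω : Ω) (h : ¬ E ω) : res μ E ω = 0 := by
  unfold res
  rw [if_neg h]

/-- the finite form -/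
theorem fin_cnt {M : ℕ} {Ω ζ : Type} [Fintype Ω] (μ : Ω → ℝ) (Z : Ω → ζ) (y : Ω → Fin M → ℝ) (E : Ω → Prop)
    (δ R : ℝ) (θ : Ω → ℝ) (j : Ω → ℕ) (J : ℕ) (U : Ω → Set (Fin M → ℝ)) (hμ : ∀ ω, 0 ≤ μ ω) (hm : mass μ = 1)
    (hδ : 0 < δ) (hδ1 : δ ≤ 1) (hR : 1 ≤ R) (hy : ∀ ω, μ ω ≠ 0 → ∀ i, |y ω i| ≤ R)
    (hj : ∀ ω, μ ω ≠ 0 → j ω ≤ J) (hθ : ∀ ω, μ ω ≠ 0 → 0 < θ ω)
    (hU : ∀ ω ω', μ ω ≠ 0 → μ ω' ≠ 0 → E ω → E ω' → Z ω = Z ω' → j ω = j ω' → U ω = U ω')
    (hv : ∀ ω, μ ω ≠ 0 → E ω → volume (U ω) ≤ ENNReal.ofReal (θ ω))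
    (hQ : ∀ ω, μ ω ≠ 0 → E ω → Q δ (fun i => ⌊y ω i / δ⌋) ⊆ U ω) :
    CH μ (fun ω i => ⌊y ω i / δ⌋) Z ≤ Real.logb 2 (J + 2) + (∑ ω, res μ E ω * Real.logb 2 (θ ω / δ ^ M)) +
      M * Real.logb 2 (7 * R / δ) * mass (res μ (fun ω => ¬ E ω)) := by
  classical
  set j' : Ω → ℕ := fun ω => if E ω then j ω + 1 else 0 with hj'
  have h1 := CH_lab μ (fun ω i => ⌊y ω i / δ⌋) Z j' (J + 1) hμ hm (by
    intro ω hω
    rw [hj']
    dsimp only
    split_ifs
    · have := hj ω hω
      omega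
    · exact Nat.zero_le _)
  have hRδ : 1 ≤ R / δ := by
    rw [le_div_iff₀ hδ]
    linarith
  set c : Ω → ℝ := fun ω => if E ω then θ ω / δ ^ M else (7 * R / δ) ^ M with hc
  have h2 := CH_cardv μ (fun ω i => ⌊y ω i / δ⌋) (fun ω => (Z ω, j' ω)) c hμ (by
    intro ω hω T hT
    rw [hc]
    dsimp only
    by_cases hE : E ω
    · rw [if_pos hE, le_div_iff₀ (by positivity)]
      apply card_cubes δ hδ T (U ω) (θ ω) (hθ ω hω).le _ (hv ω hω hE)
      intro a ha
      obtain ⟨ω', h3, h4, rfl⟩ := hT a ha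
      rw [Prod.mk.injEq] at h4
      have h5 : E ω' := by
        by_contra h6
        have h7 := h4.2
        rw [hj'] at h7
        dsimp only at h7
        rw [if_neg h6, if_pos hE] at h7
        omega
      have h6 : j ω' = j ω := by
        have h7 := h4.2
        rw [hj'] at h7
        dsimp only at h7
        rw [if_pos h5, if_pos hE] at h7
        omega
      rw [← hU ω' ω h3 hω h5 hE h4.1 h6]
      exact hQ ω' h3 h5
    · rw [if_neg hE]
      have h3 := card_box T (⌈R / δ⌉₊ + 1) (by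
        intro a ha i
        obtain ⟨ω', h4, _, rfl⟩ := hT a ha
        have h5 := hy ω' h4 i
        have h6 : |y ω' i / δ| ≤ R / δ := by
          rw [abs_div, abs_of_pos hδ]
          exact div_le_div_of_nonneg_right h5 hδ.le
        have h7 := Int.floor_le (y ω' i / δ)
        have h8 := Int.lt_floor_add_one (y ω' i / δ)
        have h9 := Nat.le_ceil (R / δ)
        push_cast
        rw [abs_le] at h6 ⊢
        constructor
        · linarith [h6.1]
        · linarith [h6.2])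
      refine h3.trans (pow_le_pow_left₀ (by positivity) ?_ M)
      have h4 := Nat.ceil_lt_add_one (a := R / δ) (by linarith)
      push_cast
      have h5 : 7 * R / δ = 7 * (R / δ) := by ring
      rw [h5]
      linarith)
  have h3 : ∑ ω, μ ω * Real.logb 2 (c ω) = (∑ ω, res μ E ω * Real.logb 2 (θ ω / δ ^ M)) +
      M * Real.logb 2 (7 * R / δ) * mass (res μ (fun ω => ¬ E ω)) := by
    unfold mass
    rw [Finset.mul_sum, ← Finset.sum_add_distrib]
    refine Finset.sum_congr rfl fun ω _ => ?_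
    rw [hc]
    dsimp only
    by_cases hE : E ω
    · have e1 : res μ (fun ω => ¬ E ω) ω = 0 := res_of_not μ (fun ω => ¬ E ω) ω (not_not.mpr hE)
      have e2 : res μ E ω = μ ω := res_of μ E ω hE
      rw [if_pos hE, e2, e1, mul_zero, add_zero]
    · have e1 : res μ (fun ω => ¬ E ω) ω = μ ω := res_of μ (fun ω => ¬ E ω) ω hE
      have e2 : res μ E ω = 0 := res_of_not μ E ω hE
      rw [if_neg hE, e2, e1, zero_mul, zero_add, Real.logb_pow]
      ring
  rw [h3] at h2
  have h4 : ((J + 1 : ℕ) : ℝ) + 1 = J + 2 := by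
    push_cast
    ring
  rw [h4] at h1
  linarith

end

end Pool.Agent.Helper14.MC
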