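import Pool.Agent.Helper14.MC.Cnt

/-! The window form of COUNT for a point of `R ^ (m + 1)` over any label which carries a form: if the form is small and
its gradient is at least `2 ^ (σ n)` at the point then the point has at most `m (σ - c)` digits between the levels `c` and
`σ` over the label. -/

set_option autoImplicit false

namespace Pool.Agent.Helper14.MC

open Finset Filter Topology Matrix Pool.Agent.Helper69.RK Pool.Agent.Helper31.EC Pool.Agent.Helper31.EC.Sp
open Pool.Agent.Helper40.EL Pool.Agent.Helper89.LX Pool.Agent.Helper3.LF Pool.Agent.Helper84.MT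
open Pool.Agent.Helper95.LF
open Pool.Agent.Helper42.NS (osp u1 u1_dg u1_h osp_dl exists_max_node)

noncomputable section

variable {S : Sp} {m : ℕ}

section

variable (Q : S.VV (m + 1)) {D : ℕ} (x : ∀ k, FD (S.F k) (Mon (m + 1) D))

/-- the node with the largest derivative -/
def qj (k : ℕ) (ω : (x k).l.T.Ω) : Fin (m + 1) → Fin (D + 1) :=
  (exists_max_node m.succ_pos ((x k).g ω) (S.dl 1 k) (Q.v k ((x k).l.p.π ω))).choose_spec.choose_spec.choose

/-- the point -/
def qy (k : ℕ) (ω : (x k).l.T.Ω) : Fin (m + 1) → ℝ := nodp D (Q.v k ((x k).l.p.π ω)) (S.dl 1 k) (qj Q x k ω)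

theorem qy_spec (k : ℕ) (ω : (x k).l.T.Ω) : ∃ (r : Mon (m + 1) D) (i : Fin (m + 1)), PdM ((x k).g ω) →
    gam (S.dl 1 k) ((x k).g ω) (Q.v k ((x k).l.p.π ω)) ≤
      Fintype.card (Mon (m + 1) D) * ((m + 1 : ℕ) * nn (m + 1) D) *
      (MvPolynomial.eval (qy Q x k ω) (MvPolynomial.pderiv i (pol (rws ((x k).g ω) r)))) ^ 2 :=
  ⟨_, _, (exists_max_node m.succ_pos ((x k).g ω) (S.dl 1 k)
    (Q.v k ((x k).l.p.π ω))).choose_spec.choose_spec.choose_spec⟩

theorem qy_near (k : ℕ) (ω : (x k).l.T.Ω) (i : Fin (m + 1)) :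
    |qy Q x k ω i - Q.v k ((x k).l.p.π ω) i| ≤ S.dl 1 k := by
  unfold qy nodp
  have e1 : Q.v k ((x k).l.p.π ω) i + S.dl 1 k * nod D (qj Q x k ω i) - Q.v k ((x k).l.p.π ω) i =
      S.dl 1 k * nod D (qj Q x k ω i) := by ring
  rw [e1, abs_mul, abs_of_pos (S.dl_pos 1 k), abs_of_nonneg (nod_nonneg D _)]
  have := nod_le D (qj Q x k ω i) (Nat.le_of_lt_succ (qj Q x k ω i).2)
  have := S.dl_pos 1 k
  nlinarith

end

/-- COUNT, window form: over any label which carries a form -/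
theorem cnt_win (Q : S.VV (m + 1)) {D : ℕ} {c σ e : ℝ} (hcs : c ≤ σ) (h1 : σ ≤ 1) (he : 0 ≤ e)
    (x : ∀ k, FD (S.F k) (Mon (m + 1) D))
    (hcap : ∀ᶠ k in UF, ∀ ω, (x k).l.T.μ ω ≠ 0 → PdM ((x k).g ω)) (K : ℕ → ℝ) (hK : S.Sub K)
    (hT1 : Sp.Typ (S := (lb x).sp) (fun k (ω : (x k).l.T.Ω) =>
      phi (S.dl 1 k) ((x k).g ω) (Q.v k ((x k).l.p.π ω)) ≤ K k * 2 ^ (2 * e * (S.F k).n)))
    (hT2 : Sp.Typ (S := (lb x).sp) (fun k (ω : (x k).l.T.Ω) =>
      2 ^ (2 * σ * (S.F k).n) ≤ K k * gam (S.dl 1 k) ((x k).g ω) (Q.v k ((x k).l.p.π ω)))) :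
    h (up1 (lb x) (Q.dg σ)) (up1 (lb x) (Q.dg c)) ≤ m * (σ - c) + 2 * (m + 1) * e := by
  classical
  have hc1 : c ≤ 1 := hcs.trans h1
  obtain ⟨Kp, hKp, hpb⟩ := Q.bd
  set C2 : ℝ := Fintype.card (Mon (m + 1) D) * ((m + 1 : ℕ) * nn (m + 1) D) with hC2
  have hC20 : 0 ≤ C2 := by
    have := nn_one (m + 1) D
    rw [hC2]
    positivity
  set l : Lab S := lb x with hl
  have hTsub : ∀ {L : ℕ → ℝ}, S.Sub L → (osp l).Sub L := fun hL => chg_sub l.V 1 one_pos ((sp_Sub l).mpr hL)
  set y : (osp l).VV (m + 1) :=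
    { v := fun k ω => qy Q x k ω
      bd := by
        refine ⟨fun k => Kp k + 1, hTsub (hKp.add (S.Sub_const zero_le_one)), ?_⟩
        filter_upwards [hpb] with k hk ω hω i
        have h2 := qy_near Q x k ω i
        have h3 := hk _ ((x k).l.p.supp ω hω) i
        have h4 := dl_one_le S k
        have h5 := abs_sub_abs_le_abs_sub (qy Q x k ω i) (Q.v k ((x k).l.p.π ω) i)
        linarith } with hy
  have hmain : h (y.dg σ) (cl ((oQ l Q).bdd c).toInf) ≤ m * (σ - c) + 2 * (m + 1) * e := by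
    apply Pool.Agent.Helper80.LF.h_leaf (S := osp l) (m := m) (J := Fintype.card (Mon (m + 1) D)) (D := D) y σ c e hcs
      he ((oQ l Q).bdd c).toInf (fun k ω j => pol (rws ((x k).g ω) ((Fintype.equivFin _).symm j)))
      (fun k ω i => (((oQ l Q).cellv c k ω i : ℤ) : ℝ) * S.dl c k)
      ?_ (fun k ω j => pol_deg _)
      (fun k ω => phi (S.dl 1 k) ((x k).g ω) (Q.v k ((x k).l.p.π ω)) ≤ K k * 2 ^ (2 * e * (S.F k).n) ∧
        2 ^ (2 * σ * (S.F k).n) ≤ K k * gam (S.dl 1 k) ((x k).g ω) (Q.v k ((x k).l.p.π ω))) ?_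
      (fun k => (K k + 1) + (C2 * K k + 1) + 2) ?_ ?_
    · refine Eventually.of_forall fun k ω ω' a a' g1 g => ?_
      have g3 : (x k).l.V ω' ω := g.1
      have g2 : (x k).l.T.Z ω' ω := g.2
      have g4 : (oQ l Q).cellv c k ω' = (oQ l Q).cellv c k ω := g1
      refine ⟨?_, ?_⟩
      · funext j
        rw [((x k).meas ω' ω a' a g3 g2).1]
      · rw [g4]
    · exact typ_and (S := (lb x).sp) hT1 hT2
    · exact hTsub (((hK.add (S.Sub_const zero_le_one)).add (((S.Sub_const hC20).mul hK).add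
        (S.Sub_const zero_le_one))).add (S.Sub_const (by norm_num)))
    · filter_upwards [hcap, hK.1] with k b1 b3 ω hω g
      obtain ⟨g1, g2⟩ := g
      have hn := osp_n l k
      have hCK : 0 ≤ C2 * K k := mul_nonneg hC20 b3
      have hpd := b1 ω hω
      refine ⟨fun i => ?_, ?_⟩
      · rw [osp_dl]
        have d1 : S.dl 1 k ≤ S.dl c k := S.dl_anti hc1 k
        have d0 := S.dl_pos c k
        have h2 := qy_near Q x k ω i
        have h3 : |Q.v k ((x k).l.p.π ω) i - (((oQ l Q).cellv c k ω i : ℤ) : ℝ) * S.dl c k| ≤ S.dl c k := by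
          have e0 : (oQ l Q).cellv c k ω i = ⌊Q.v k ((x k).l.p.π ω) i / S.dl c k⌋ := by
            unfold Sp.VV.cellv
            rw [osp_dl]
            rfl
          rw [e0]
          have f1 := Int.floor_le (Q.v k ((x k).l.p.π ω) i / S.dl c k)
          have f2 := Int.lt_floor_add_one (Q.v k ((x k).l.p.π ω) i / S.dl c k)
          rw [le_div_iff₀ d0] at f1
          rw [div_lt_iff₀ d0] at f2
          rw [abs_le]
          constructor <;> nlinarith
        have h4 : |qy Q x k ω i - (((oQ l Q).cellv c k ω i : ℤ) : ℝ) * S.dl c k| ≤ S.dl c k + S.dl c k := by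
          refine (abs_sub_le _ (Q.v k ((x k).l.p.π ω) i) _).trans ?_
          linarith
        refine h4.trans ?_
        have h5 : S.dl c k + S.dl c k = 2 * S.dl c k := by ring
        rw [h5]
        apply mul_le_mul_of_nonneg_right _ d0.le
        linarith
      · obtain ⟨r, i, hr⟩ := qy_spec Q x k ω
        have hr1 := hr hpd
        refine ⟨Fintype.equivFin _ r, i, ?_, ?_⟩
        · rw [Equiv.symm_apply_apply, hn]
          have h2 := node_le (D := D) (pol (rws ((x k).g ω) r)) (S.dl 1 k) (Q.v k ((x k).l.p.π ω)) (qj Q x k ω)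
          have h3 := rws_ph_le hpd (S.dl 1 k) (Q.v k ((x k).l.p.π ω)) r
          have e2 : Real.sqrt (K k * 2 ^ (2 * e * (S.F k).n)) = Real.sqrt (K k) * 2 ^ (e * (S.F k).n) := by
            rw [Real.sqrt_mul b3]
            congr 1
            have e3 : (2 : ℝ) ^ (2 * e * (S.F k).n) = (2 ^ (e * (S.F k).n)) ^ 2 := by
              rw [← Real.rpow_natCast, ← Real.rpow_mul (by norm_num)]
              congr 1
              push_cast
              ring
            rw [e3, Real.sqrt_sq (by positivity)]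
          have h4 : Real.sqrt (ph D (pol (rws ((x k).g ω) r)) (S.dl 1 k) (Q.v k ((x k).l.p.π ω))) ≤
              (K k + 1) * 2 ^ (e * (S.F k).n) := by
            refine (Real.sqrt_le_sqrt (h3.trans g1)).trans ?_
            rw [e2]
            exact mul_le_mul_of_nonneg_right (sqrt_le_add_one _ b3) (by positivity)
          have h5 : |MvPolynomial.eval (qy Q x k ω) (pol (rws ((x k).g ω) r))| ≤ (K k + 1) * 2 ^ (e * (S.F k).n) :=
            h2.trans h4
          refine h5.trans ?_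
          apply mul_le_mul_of_nonneg_right _ (by positivity)
          linarith
        · rw [Equiv.symm_apply_apply, hn]
          set d : ℝ := MvPolynomial.eval (qy Q x k ω) (MvPolynomial.pderiv i (pol (rws ((x k).g ω) r))) with hd
          have h2 : ((2 : ℝ) ^ (σ * (S.F k).n)) ^ 2 ≤ C2 * K k * d ^ 2 := by
            have e1 : ((2 : ℝ) ^ (σ * (S.F k).n)) ^ 2 = 2 ^ (2 * σ * (S.F k).n) := by
              rw [← Real.rpow_natCast, ← Real.rpow_mul (by norm_num)]
              congr 1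
              push_cast
              ring
            rw [e1]
            refine g2.trans ?_
            calc K k * gam (S.dl 1 k) ((x k).g ω) (Q.v k ((x k).l.p.π ω)) ≤ K k * (C2 * d ^ 2) :=
                  mul_le_mul_of_nonneg_left hr1 b3
              _ = _ := by ring
          have h3 : (2 : ℝ) ^ (σ * (S.F k).n) ≤ (C2 * K k + 1) * |d| := by
            apply le_of_sq_le_sq _ (by positivity)
            rw [mul_pow, sq_abs]
            refine h2.trans ?_
            apply mul_le_mul_of_nonneg_right _ (sq_nonneg _)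
            nlinarith
          have h4 : (2 : ℝ) ^ ((σ - e) * (S.F k).n) ≤ 2 ^ (σ * (S.F k).n) := by
            apply Real.rpow_le_rpow_of_exponent_le (by norm_num)
            apply mul_le_mul_of_nonneg_right _ (S.F k).pos.le
            linarith
          refine (h4.trans h3).trans ?_
          apply mul_le_mul_of_nonneg_right _ (abs_nonneg _)
          linarith
  have hcl : cl ((oQ l Q).bdd c).toInf = u1 l (Q.dg c) := by
    rw [← oQ_dg]
    exact (io_eq ((oQ l Q).bdd c)).symm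
  rw [hcl] at hmain
  -- the digits of the point are digits of the node
  have hP : u1 l (Q.dg σ) ≤ y.dg σ := by
    rw [← oQ_dg]
    apply VV.dg_le_dg _ _ _ _ (fun _ _ => True) Typ_true (fun _ => 3) (Sub_const _ (by norm_num))
    refine Eventually.of_forall fun k ω ω' _ _ _ _ _ g i => ?_
    have h2 := g i
    rw [osp_dl] at h2 ⊢
    have h3 := qy_near Q x k ω i
    have h4 := qy_near Q x k ω' i
    have d1 : S.dl 1 k ≤ S.dl σ k := S.dl_anti h1 k
    show |Q.v k ((x k).l.p.π ω) i - Q.v k ((x k).l.p.π ω') i| ≤ _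
    have h5 : |qy Q x k ω i - qy Q x k ω' i| ≤ S.dl σ k := h2
    rw [abs_le] at h3 h4 h5 ⊢
    constructor <;> linarith [h3.1, h3.2, h4.1, h4.2, h5.1, h5.2]
  have h2 : h (u1 l (Q.dg σ)) (u1 l (Q.dg c)) ≤ h (y.dg σ) (u1 l (Q.dg c)) := h_mono hP
  rw [← u1_h l (Q.dg σ) (Q.dg c)]
  exact h2.trans hmain

/-- COUNT, window form, for an admissible form (any family of conditions) -/
theorem cnt_adf {κ : Type} {A : κ → Part S} (Q : S.VV (m + 1)) {D : ℕ} {c σ : ℝ} (hcs : c ≤ σ) (h1 : σ ≤ 1)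
    (x : ∀ k, FD (S.F k) (Mon (m + 1) D)) (hx : (gaq Q D).Adf A x)
    (hT : ∀ e : ℝ, 0 < e → Tendsto (fun k => (x k).l.T.pb (fun ω =>
      ¬ 2 ^ (2 * (σ - e) * (S.F k).n) ≤ gam (S.dl 1 k) ((x k).g ω) (Q.v k ((x k).l.p.π ω)))) UF (𝓝 0)) :
    h (up1 (lb x) (Q.dg σ)) (up1 (lb x) (Q.dg c)) ≤ m * (σ - c) := by
  obtain ⟨K, hK, hT1⟩ := adf_sub hx
  obtain ⟨K2, hK2, hK21, hT2⟩ := typ_sub_ge (S := (lb x).sp)
    (fun k (ω : (x k).l.T.Ω) => gam (S.dl 1 k) ((x k).g ω) (Q.v k ((x k).l.p.π ω))) (2 * σ) (fun e he => by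
      have h2 := hT (e / 2) (by linarith)
      have h3 : Tendsto (fun k => (x k).l.T.pb (fun ω => ¬ 2 ^ ((2 * σ - e) * ((lb x).sp.F k).n) ≤
        gam (S.dl 1 k) ((x k).g ω) (Q.v k ((x k).l.p.π ω)))) UF (𝓝 0) := by
        refine h2.congr fun k => ?_
        congr 1
        funext ω
        rw [sp_n]
        congr 2
        ring_nf
      exact h3)
  have hK2' : S.Sub K2 := (sp_Sub (lb x)).mp hK2
  have h2 := cnt_win (e := 0) Q hcs h1 le_rfl x (by
      filter_upwards [hx 1 one_pos] with k hk ω hω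
      exact (hk.2.1 ω hω).1.pdM) (fun k => K k + K2 k) (hK.add hK2') (by
      have h3 : Sp.Typ (S := (lb x).sp) (fun k (ω : (x k).l.T.Ω) =>
          phi (S.dl 1 k) ((x k).g ω) (Q.v k ((x k).l.p.π ω)) ≤ (K k + K2 k) * 2 ^ (2 * 0 * (S.F k).n)) := by
        refine typ_mono (S := (lb x).sp) hT1 ?_
        filter_upwards [hK2.1] with k h4 ω _ h5
        rw [mul_zero, zero_mul, Real.rpow_zero, mul_one]
        have h6 : phi (S.dl 1 k) ((x k).g ω) (Q.v k ((x k).l.p.π ω)) ≤ K k := h5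
        exact h6.trans (by linarith)
      exact h3) (by
      have h3 : Sp.Typ (S := (lb x).sp) (fun k (ω : (x k).l.T.Ω) =>
          2 ^ (2 * σ * (S.F k).n) ≤ (K k + K2 k) * gam (S.dl 1 k) ((x k).g ω) (Q.v k ((x k).l.p.π ω))) := by
        refine typ_mono (S := (lb x).sp) hT2 ?_
        filter_upwards [hK.1, hx 1 one_pos] with k h4 h6 ω hω h5
        rw [sp_n] at h5
        have h7 : 0 ≤ gam (S.dl 1 k) ((x k).g ω) (Q.v k ((x k).l.p.π ω)) :=
          gam_nonneg _ (fun y => (h6.2.1 ω hω).1.psd.2 y) _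
        refine h5.trans ?_
        apply mul_le_mul_of_nonneg_right _ h7
        linarith
      exact h3)
  rw [mul_zero, add_zero] at h2
  exact h2

/-- the same with a base cell known to the label -/
theorem cnt_adf_H {κ : Type} {A : κ → Part S} (Q : S.VV (m + 1)) {D : ℕ} {c σ : ℝ} (hcs : c ≤ σ) (h1 : σ ≤ 1)
    (x : ∀ k, FD (S.F k) (Mon (m + 1) D)) (hx : (gaq Q D).Adf A x) (hc : up1 (lb x) (Q.dg c) = ⊥)
    (hT : ∀ e : ℝ, 0 < e → Tendsto (fun k => (x k).l.T.pb (fun ω =>
      ¬ 2 ^ (2 * (σ - e) * (S.F k).n) ≤ gam (S.dl 1 k) ((x k).g ω) (Q.v k ((x k).l.p.π ω)))) UF (𝓝 0)) :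
    H (up1 (lb x) (Q.dg σ)) ≤ m * (σ - c) := by
  have h2 := cnt_adf Q hcs h1 x hx hT
  rwa [hc, h_bot] at h2

end

end Pool.Agent.Helper14.MC
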